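import Pool.Agent.H41.PP.Irred

/-!
A polynomial with integer coefficients whose reduction modulo a prime is irreducible of the
same total degree is irreducible over the rational numbers.
-/

open MvPolynomial

namespace Pool.Agent.H41.PP

attribute [local instance] MvPolynomial.algebraMvPolynomial

theorem totalDegree_map_of_inj {σ R S : Type*} [CommSemiring R] [CommSemiring S] {f : R →+* S}
    (hf : Function.Injective f) (p : MvPolynomial σ R) :
    (map f p).totalDegree = p.totalDegree := by
  rw [totalDegree, totalDegree, support_map_of_injective _ hf]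

theorem totalDegree_map_le' {σ R S : Type*} [CommSemiring R] [CommSemiring S] (f : R →+* S)
    (p : MvPolynomial σ R) : (map f p).totalDegree ≤ p.totalDegree :=
  Finset.sup_mono (support_map_subset _ _)

/-- A nonzero polynomial over `Q` is a scalar times an integer polynomial which is nonzero
modulo `p`. -/
theorem exists_scale {σ : Type*} {p : ℕ} [Fact p.Prime] (g : MvPolynomial σ ℚ) (hg : g ≠ 0) :
    ∃ c : ℚ, c ≠ 0 ∧ ∃ g' : MvPolynomial σ ℤ, C c * g = map (Int.castRingHom ℚ) g' ∧
      map (Int.castRingHom (ZMod p)) g' ≠ 0 := by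
  have hp : p.Prime := Fact.out
  have hloc := MvPolynomial.isLocalization (σ := σ) (nonZeroDivisors ℤ) ℚ
  obtain ⟨⟨g1, s⟩, hs⟩ := IsLocalization.surj ((nonZeroDivisors ℤ).map (C (σ := σ))) g
  obtain ⟨b, hb, hbs⟩ := s.2
  have hb0 : b ≠ 0 := nonZeroDivisors.ne_zero hb
  have hs' : g * C (b : ℚ) = map (Int.castRingHom ℚ) g1 := by
    have : (algebraMap (MvPolynomial σ ℤ) (MvPolynomial σ ℚ)) (C b) = C (b : ℚ) := by
      rw [algebraMap_def, map_C]
      rfl
    rw [← this, hbs]
    exact hs
  have hg1 : g1 ≠ 0 := by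
    rintro rfl
    rw [map_zero, mul_eq_zero] at hs'
    rcases hs' with h | h
    · exact hg h
    · rw [C_eq_zero] at h
      exact hb0 (by exact_mod_cast h)
  have hpp : Prime (C (p : ℤ) : MvPolynomial σ ℤ) :=
    (MvPolynomial.prime_C_iff σ).2 (Nat.prime_iff_prime_int.1 hp)
  obtain ⟨k, g2, hk, hk2⟩ := WfDvdMonoid.max_power_factor hg1 hpp.irreducible
  have hp0 : ((p : ℚ) ^ k) ≠ 0 := pow_ne_zero _ (by exact_mod_cast hp.ne_zero)
  refine ⟨b / p ^ k, div_ne_zero (by exact_mod_cast hb0) hp0, g2, ?_, ?_⟩
  · have h1 : C ((p : ℚ) ^ k) * (C ((b : ℚ) / p ^ k) * g) =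
        C ((p : ℚ) ^ k) * map (Int.castRingHom ℚ) g2 := by
      rw [← mul_assoc, ← C_mul, mul_div_cancel₀ _ hp0, mul_comm, hs', hk2, map_mul, map_pow, map_C,
        C_pow]
      simp
    exact mul_left_cancel₀ (by rwa [Ne, C_eq_zero]) h1
  · rw [Ne, ← C_dvd_iff_zmod]
    exact hk

theorem irreducible_map_of_mod {σ : Type*} {p : ℕ} [Fact p.Prime] (f : MvPolynomial σ ℤ)
    (hirr : Irreducible (map (Int.castRingHom (ZMod p)) f))
    (hdeg : f.totalDegree ≤ (map (Int.castRingHom (ZMod p)) f).totalDegree) :
    Irreducible (map (Int.castRingHom ℚ) f) := by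
  have hp : p.Prime := Fact.out
  have hinj : Function.Injective (Int.castRingHom ℚ) := (Int.castRingHom ℚ).injective_int
  have hpos : 0 < (map (Int.castRingHom (ZMod p)) f).totalDegree := by
    rw [Nat.pos_iff_ne_zero]
    intro h0
    rw [totalDegree_eq_zero_iff_eq_C] at h0
    rw [h0] at hirr
    have hne : coeff 0 (map (Int.castRingHom (ZMod p)) f) ≠ 0 := by
      intro h
      rw [h, C_0] at hirr
      exact hirr.ne_zero rfl
    exact hirr.not_isUnit ((IsUnit.mk0 _ hne).map C)
  have hf0 : f ≠ 0 := by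
    rintro rfl
    simp at hpos
  have hfp0 : map (Int.castRingHom (ZMod p)) f ≠ 0 := hirr.ne_zero
  rw [irreducible_iff]
  refine ⟨fun h => ?_, fun g h hgh => ?_⟩
  · have := (isUnit_iff_totalDegree_of_isReduced.1 h).2
    rw [totalDegree_map_of_inj hinj] at this
    have := totalDegree_map_le' (Int.castRingHom (ZMod p)) f
    omega
  · have hQ0 : map (Int.castRingHom ℚ) f ≠ 0 := by
      rw [Ne, ← (map (Int.castRingHom ℚ)).map_zero]
      exact fun h => hf0 (map_injective _ hinj h)
    have hg0 : g ≠ 0 := by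
      rintro rfl
      exact hQ0 (by rw [hgh, zero_mul])
    have hh0 : h ≠ 0 := by
      rintro rfl
      exact hQ0 (by rw [hgh, mul_zero])
    obtain ⟨c1, hc1, g', hg', hg'p⟩ := exists_scale (p := p) g hg0
    obtain ⟨c2, hc2, h', hh', hh'p⟩ := exists_scale (p := p) h hh0
    have hg'0 : g' ≠ 0 := by
      rintro rfl
      simp at hg'p
    have hh'0 : h' ≠ 0 := by
      rintro rfl
      simp at hh'p
    set c := c1 * c2 with hc
    have hc0 : c ≠ 0 := mul_ne_zero hc1 hc2
    have hden : (c.den : ℚ) ≠ 0 := by exact_mod_cast c.den_nz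
    have hint : C c.num * f = C (c.den : ℤ) * (g' * h') := by
      apply map_injective _ hinj
      rw [map_mul, map_mul, map_mul, map_C, map_C, ← hg', ← hh', hgh]
      have e1 : C c1 * g * (C c2 * h) = C c * (g * h) := by
        rw [hc, C_mul]
        ring
      rw [e1, ← mul_assoc (C _) (C c) (g * h), ← C_mul]
      congr 2
      simp only [eq_intCast, Int.cast_natCast]
      rw [mul_comm]
      exact (Rat.mul_den_eq_num c).symm
    have hmod := congrArg (map (Int.castRingHom (ZMod p))) hint
    rw [map_mul, map_mul, map_mul, map_C, map_C] at hmod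
    have hnum : (Int.castRingHom (ZMod p)) c.num ≠ 0 := by
      intro h0
      rw [h0, C_0, zero_mul] at hmod
      have h1 := hmod.symm
      rw [mul_eq_zero, mul_eq_zero, C_eq_zero] at h1
      have h2 : (Int.castRingHom (ZMod p)) (c.den : ℤ) = 0 := by
        rcases h1 with h1 | h1 | h1
        · exact h1
        · exact absurd h1 hg'p
        · exact absurd h1 hh'p
      have d1 : (p : ℤ) ∣ c.num := (ZMod.intCast_zmod_eq_zero_iff_dvd _ _).1 h0
      have d2 : (p : ℤ) ∣ (c.den : ℤ) := (ZMod.intCast_zmod_eq_zero_iff_dvd _ _).1 h2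
      have d3 := Nat.dvd_gcd (Int.natCast_dvd.1 d1) (Int.natCast_dvd_natCast.1 d2)
      rw [c.reduced] at d3
      exact hp.one_lt.ne' (Nat.dvd_one.1 d3)
    have hunit : IsUnit (C ((Int.castRingHom (ZMod p)) c.num) : MvPolynomial σ (ZMod p)) :=
      (IsUnit.mk0 _ hnum).map C
    have hirr2 := (irreducible_isUnit_mul hunit).2 hirr
    rw [hmod] at hirr2
    have hor : IsUnit (map (Int.castRingHom (ZMod p)) g') ∨
        IsUnit (map (Int.castRingHom (ZMod p)) h') := by
      rw [← mul_assoc] at hirr2
      rcases hirr2.isUnit_or_isUnit rfl with h1 | h1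
      · exact Or.inl (isUnit_of_mul_isUnit_right h1)
      · exact Or.inr h1
    -- degrees
    have hnum0 : c.num ≠ 0 := Rat.num_ne_zero.2 hc0
    have hden0 : (c.den : ℤ) ≠ 0 := by exact_mod_cast c.den_nz
    have hd1 : f.totalDegree = g'.totalDegree + h'.totalDegree := by
      have := congrArg totalDegree hint
      rwa [totalDegree_mul_of_isDomain (by rwa [Ne, C_eq_zero]) hf0,
        totalDegree_mul_of_isDomain (by rwa [Ne, C_eq_zero]) (mul_ne_zero hg'0 hh'0),
        totalDegree_mul_of_isDomain hg'0 hh'0, totalDegree_C, totalDegree_C, zero_add,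
        zero_add] at this
    have hden1 : (Int.castRingHom (ZMod p)) (c.den : ℤ) ≠ 0 := by
      intro h0
      rw [h0, C_0, zero_mul] at hirr2
      exact hirr2.ne_zero rfl
    have hd2 : (map (Int.castRingHom (ZMod p)) f).totalDegree =
        (map (Int.castRingHom (ZMod p)) g').totalDegree +
        (map (Int.castRingHom (ZMod p)) h').totalDegree := by
      have := congrArg totalDegree hmod
      rwa [totalDegree_mul_of_isDomain (by rwa [Ne, C_eq_zero]) hfp0,
        totalDegree_mul_of_isDomain (by rwa [Ne, C_eq_zero]) (mul_ne_zero hg'p hh'p),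
        totalDegree_mul_of_isDomain hg'p hh'p, totalDegree_C, totalDegree_C, zero_add,
        zero_add] at this
    have hd3 := totalDegree_map_le' (Int.castRingHom (ZMod p)) g'
    have hd4 := totalDegree_map_le' (Int.castRingHom (ZMod p)) h'
    have key : ∀ (u : MvPolynomial σ ℚ) (u' : MvPolynomial σ ℤ) (a : ℚ), u ≠ 0 → a ≠ 0 →
        C a * u = map (Int.castRingHom ℚ) u' → u'.totalDegree = 0 → IsUnit u := by
      intro u u' a hu ha huu' hdeg0
      have h1 := totalDegree_map_of_inj hinj u'
      rw [← huu', totalDegree_mul_of_isDomain (by rwa [Ne, C_eq_zero]) hu, totalDegree_C,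
        zero_add, hdeg0, totalDegree_eq_zero_iff_eq_C] at h1
      have hne : coeff 0 u ≠ 0 := by
        intro h
        rw [h, C_0] at h1
        exact hu h1
      rw [h1]
      exact (IsUnit.mk0 _ hne).map C
    rcases hor with h1 | h1
    · left
      have := (isUnit_iff_totalDegree_of_isReduced.1 h1).2
      exact key g g' c1 hg0 hc1 hg' (by omega)
    · right
      have := (isUnit_iff_totalDegree_of_isReduced.1 h1).2
      exact key h h' c2 hh0 hc2 hh' (by omega)

end Pool.Agent.H41.PP
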