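import Pool.Agent.H41.PP.NullZ
import Pool.Agent.H41.PP.ModP

/-!
Forms `F` of every degree `d >= 2` in `n + 1 >= 3` variables such that every form congruent to
`F` modulo all primes `p <= M` has smooth reduction at these primes, is smooth in
characteristic zero and irreducible over the rational numbers.
-/

open MvPolynomial

namespace Pool.Agent.H41.PP

theorem singAt_of_comb {k : Type*} [Field k] {m : ℕ} {G K L : MvPolynomial (Fin m) ℤ} {c c' : ℤ}
    (hc : (c : k) ≠ 0) (hc' : (c' : k) = 0) (hG : G = C c * K + C c' * L) {a : Fin m → k}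
    (h : SingAt G a) : SingAt K a := by
  obtain ⟨h0, h1⟩ := h
  have key : ∀ A B : MvPolynomial (Fin m) ℤ, aeval a (C c * A + C c' * B) = (c : k) * aeval a A := by
    intro A B
    rw [map_add, map_mul, map_mul, aeval_C, aeval_C, algebraMap_int_eq, eq_intCast, eq_intCast,
      hc', zero_mul, add_zero]
  refine ⟨?_, fun j => ?_⟩
  · rw [hG, key] at h0
    exact (mul_eq_zero.1 h0).resolve_left hc
  · have h2 := h1 j
    have h3 : pderiv j G = C c * pderiv j K + C c' * pderiv j L := by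
      rw [hG, map_add, pderiv_C_mul, pderiv_C_mul]
    rw [h3, key] at h2
    exact (mul_eq_zero.1 h2).resolve_left hc

theorem totalDegree_dehom_le (R : Type*) [CommRing R] {n d : ℕ} {F : MvPolynomial (Fin (n + 1)) ℤ}
    (hF : F.IsHomogeneous d) : (dehom R F).totalDegree ≤ d := by
  rw [dehom, aeval_def, eval₂_eq]
  refine totalDegree_finsetSum_le fun m hm => ?_
  have hmd : m.degree = d := by
    have h1 := hF (mem_support_iff.1 hm)
    rw [Finsupp.degree_eq_weight_one]
    exact h1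
  refine (totalDegree_mul _ _).trans ?_
  have e1 : (algebraMap ℤ (MvPolynomial (Fin n) R) (coeff m F)).totalDegree = 0 := by
    rw [IsScalarTower.algebraMap_apply ℤ R (MvPolynomial (Fin n) R), algebraMap_eq, totalDegree_C]
  rw [e1, zero_add]
  refine (totalDegree_finsetProd _ _).trans ?_
  rw [← hmd, Finsupp.degree_apply]
  refine Finset.sum_le_sum fun i _ => (totalDegree_pow _ _).trans ?_
  have e2 : ((Fin.cons 1 X : Fin (n + 1) → MvPolynomial (Fin n) R) i).totalDegree ≤ 1 := by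
    refine Fin.cases ?_ (fun j => ?_) i
    · simp
    · rw [Fin.cons_succ]
      rw [X]
      exact (totalDegree_monomial_le _ _).trans (by simp)
  calc m i * _ ≤ m i * 1 := Nat.mul_le_mul_left _ e2
    _ = m i := mul_one _

theorem map_dehom {n : ℕ} {R : Type*} [CommRing R] (F : MvPolynomial (Fin (n + 1)) ℤ) :
    map (Int.castRingHom R) (dehom ℤ F) = dehom R F := by
  rw [dehom, dehom, map_aeval, aeval_def]
  rw [coe_eval₂Hom]
  congr 1
  · exact RingHom.ext_int _ _
  · funext i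
    refine Fin.cases ?_ (fun j => ?_) i
    · simp
    · simp

theorem exists_base (n d M : ℕ) (hn : 2 ≤ n) (hd : 2 ≤ d) (hM : d ≤ M) :
    ∃ F : MvPolynomial (Fin (n + 1)) ℤ, F.IsHomogeneous d ∧
      ∀ Q : ℤ, (∀ p : ℕ, p.Prime → p ≤ M → (p : ℤ) ∣ Q) →
      ∀ H : MvPolynomial (Fin (n + 1)) ℤ, H.IsHomogeneous d →
        (∀ p : ℕ, p.Prime → p ≤ M → ∀ (k : Type) [Field k] [CharP k p] (a : Fin (n + 1) → k)
          (i : Fin (n + 1)), a i = 1 → aeval a (F + C Q * H) = 0 →
          ∃ j, aeval a (pderiv j (F + C Q * H)) ≠ 0) ∧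
        (∃ (D : ℤ) (e : ℕ), D ≠ 0 ∧ ∀ i, C D * X i ^ e ∈
          Ideal.span ({F + C Q * H} ∪ Set.range fun j => pderiv j (F + C Q * H))) ∧
        Irreducible (aeval (Fin.cons 1 X : Fin (n + 1) → MvPolynomial (Fin n) ℚ)
          (F + C Q * H)) := by
  classical
  set P1 := (Finset.range (M + 1)).filter (fun p => p.Prime ∧ p ∣ d) with hP1
  set P2 := (Finset.range (M + 1)).filter (fun p => p.Prime ∧ ¬ p ∣ d) with hP2
  set D1 : ℕ := ∏ p ∈ P1, p with hD1
  set D2 : ℕ := ∏ p ∈ P2, p with hD2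
  have hmem1 : ∀ p : ℕ, p.Prime → p ≤ M → p ∣ d → p ∣ D1 ∧ ¬ p ∣ D2 := by
    intro p hp hpM hpd
    refine ⟨Finset.dvd_prod_of_mem (fun p => p) (by simp [hP1, hp, hpd]; omega), fun h => ?_⟩
    obtain ⟨q, hq, hpq⟩ := (hp.prime.dvd_finset_prod_iff _).1 h
    simp only [hP2, Finset.mem_filter] at hq
    have := (Nat.prime_dvd_prime_iff_eq hp hq.2.1).1 hpq
    subst this
    exact hq.2.2 hpd
  have hmem2 : ∀ p : ℕ, p.Prime → p ≤ M → ¬ p ∣ d → p ∣ D2 ∧ ¬ p ∣ D1 := by
    intro p hp hpM hpd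
    refine ⟨Finset.dvd_prod_of_mem (fun p => p) (by simp [hP2, hp, hpd]; omega), fun h => ?_⟩
    obtain ⟨q, hq, hpq⟩ := (hp.prime.dvd_finset_prod_iff _).1 h
    simp only [hP1, Finset.mem_filter] at hq
    have := (Nat.prime_dvd_prime_iff_eq hp hq.2.1).1 hpq
    subst this
    exact hpd hq.2.2
  set F : MvPolynomial (Fin (n + 1)) ℤ := C (D2 : ℤ) * klein n d + C (D1 : ℤ) * fermat n d
    with hF
  have hFh : F.IsHomogeneous d := by
    refine IsHomogeneous.add ?_ ?_
    · simpa using (isHomogeneous_C (Fin (n + 1)) (D2 : ℤ)).mul (klein_isHomogeneous n (by omega))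
    · simpa using (isHomogeneous_C (Fin (n + 1)) (D1 : ℤ)).mul (fermat_isHomogeneous n d)
  refine ⟨F, hFh, fun Q hQ H hH => ?_⟩
  set G := F + C Q * H with hG
  have hGh : G.IsHomogeneous d := by
    refine hFh.add ?_
    simpa using (isHomogeneous_C (Fin (n + 1)) Q).mul hH
  have hk : ∀ p : ℕ, p.Prime → p ≤ M → p ∣ d → ∃ L, G = C (D2 : ℤ) * klein n d + C (p : ℤ) * L := by
    intro p hp hpM hpd
    obtain ⟨c, hc⟩ := (hmem1 p hp hpM hpd).1
    obtain ⟨q, hq⟩ := hQ p hp hpM
    refine ⟨C (c : ℤ) * fermat n d + C q * H, ?_⟩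
    rw [hG, hF, hq, hc]
    push_cast
    rw [C_mul, C_mul]
    ring
  have hf : ∀ p : ℕ, p.Prime → p ≤ M → ¬ p ∣ d →
      ∃ L, G = C (D1 : ℤ) * fermat n d + C (p : ℤ) * L := by
    intro p hp hpM hpd
    obtain ⟨c, hc⟩ := (hmem2 p hp hpM hpd).1
    obtain ⟨q, hq⟩ := hQ p hp hpM
    refine ⟨C (c : ℤ) * klein n d + C q * H, ?_⟩
    rw [hG, hF, hq, hc]
    push_cast
    rw [C_mul, C_mul]
    ring
  have hsm : ∀ p : ℕ, p.Prime → p ≤ M → ∀ (k : Type) [Field k] [CharP k p] (a : Fin (n + 1) → k),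
      SingAt G a → a = 0 := by
    intro p hp hpM k _ _ a ha
    by_cases hpd : p ∣ d
    · obtain ⟨L, hL⟩ := hk p hp hpM hpd
      have h1 : ((D2 : ℤ) : k) ≠ 0 := by
        rw [Int.cast_natCast, Ne, CharP.cast_eq_zero_iff k p]
        exact (hmem1 p hp hpM hpd).2
      have h2 : ((p : ℤ) : k) = 0 := by simp
      have h3 := singAt_of_comb h1 h2 hL ha
      exact klein_smooth (by omega) hd ((CharP.cast_eq_zero_iff k p d).2 hpd) h3
    · obtain ⟨L, hL⟩ := hf p hp hpM hpd
      have h1 : ((D1 : ℤ) : k) ≠ 0 := by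
        rw [Int.cast_natCast, Ne, CharP.cast_eq_zero_iff k p]
        exact (hmem2 p hp hpM hpd).2
      have h2 : ((p : ℤ) : k) = 0 := by simp
      have h3 := singAt_of_comb h1 h2 hL ha
      exact fermat_smooth (by omega) (fun h => hpd ((CharP.cast_eq_zero_iff k p d).1 h)) h3
  have hp0 : (d.minFac).Prime := Nat.minFac_prime (by omega)
  have hp0d : d.minFac ∣ d := Nat.minFac_dvd d
  have hp0M : d.minFac ≤ M := (Nat.minFac_le (by omega)).trans hM
  refine ⟨?_, ?_, ?_⟩
  · intro p hp hpM k _ _ a i hai h0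
    by_contra hcon
    push Not at hcon
    have := hsm p hp hpM k a ⟨h0, hcon⟩
    rw [this, Pi.zero_apply] at hai
    exact zero_ne_one hai
  · obtain ⟨D, hD, e, he⟩ := exists_D (F := G) fun a ha =>
      smooth_of_char hGh hp0 (fun k _ _ a ha => hsm _ hp0 hp0M k a ha) ha
    exact ⟨D, e, hD, he⟩
  · haveI := Fact.mk hp0
    change Irreducible (dehom ℚ G)
    rw [← map_dehom]
    obtain ⟨L, hL⟩ := hk _ hp0 hp0M hp0d
    have hD2 : ((D2 : ℤ) : ZMod d.minFac) ≠ 0 := by
      rw [Int.cast_natCast, Ne, CharP.cast_eq_zero_iff (ZMod d.minFac) d.minFac]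
      exact (hmem1 _ hp0 hp0M hp0d).2
    have hmod : map (Int.castRingHom (ZMod d.minFac)) (dehom ℤ G) =
        C ((D2 : ℤ) : ZMod d.minFac) * dehom (ZMod d.minFac) (klein n d) := by
      rw [map_dehom, hL]
      have : ((d.minFac : ℤ) : ZMod d.minFac) = 0 := by simp
      rw [dehom, map_add, map_mul, map_mul, aeval_C, aeval_C,
        IsScalarTower.algebraMap_apply ℤ (ZMod d.minFac) (MvPolynomial (Fin n) (ZMod d.minFac)),
        IsScalarTower.algebraMap_apply ℤ (ZMod d.minFac) (MvPolynomial (Fin n) (ZMod d.minFac)),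
        algebraMap_eq, algebraMap_int_eq, eq_intCast, eq_intCast, this, C_0, zero_mul, add_zero]
      rfl
    refine irreducible_map_of_mod (p := d.minFac) _ ?_ ?_
    · rw [hmod, irreducible_isUnit_mul ((IsUnit.mk0 _ hD2).map C)]
      exact dehom_klein_irreducible _ hn hd
    · refine (totalDegree_dehom_le ℤ hGh).trans ?_
      have h0 : dehom (ZMod d.minFac) (klein n d) ≠ 0 :=
        (dehom_klein_irreducible _ hn hd).ne_zero
      rw [hmod, totalDegree_mul_of_isDomain (by rwa [Ne, C_eq_zero]) h0, totalDegree_C, zero_add]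
      exact le_totalDegree_dehom_klein _ hn hd

end Pool.Agent.H41.PP
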