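import Pool.Agent.H41.PP.Chart
import Pool.Agent.H97.PP.Count
import Pool.Agent.H96.Nod.Frac

/-!
Counting good forms in boxes of arithmetic progressions and in real boxes.
-/

open MvPolynomial

namespace Pool.Agent.H41.PP

open Pool.Agent.H97.PP Pool.Agent.H96.Nod

variable {n d : ℕ}

/-- The chart sieve: few members of a box of arithmetic progressions are bad at a prime larger
than `M`. -/
def ChartSieve (n d : ℕ) : Prop :=
  open Classical in
  ∃ C : ℕ, ∀ M : ℕ, d ≤ M → ∀ Q : ℤ, Q ≠ 0 →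
    (∀ p : ℕ, p.Prime → (p : ℤ) ∣ Q → p ≤ M) → ∀ K : ℕ, ∃ s₀ : ℕ, ∀ s ≥ s₀,
    ∀ a A : AMon n d → ℤ, (∀ α, |a α| ≤ K) → (∀ α, |A α| ≤ K * s) →
    M * ((Fintype.piFinset fun α => ap (a α) Q (A α) s).filter fun c =>
      ∃ p, p.Prime ∧ M < p ∧ BadAt p c).card ≤ C * s ^ Fintype.card (AMon n d)

/-- The properties of a form which give regular proper models. -/
def GoodForm (c : Mon n d → ℤ) : Prop :=
  Irreducible (deh (form c)) ∧
  (∃ (D : ℤ) (e : ℕ), D ≠ 0 ∧ ∀ i, C D * X i ^ e ∈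
    Ideal.span ({form c} ∪ Set.range fun j => pderiv j (form c))) ∧
  (∀ (k : Type) [Field k] (a : Fin (n + 1) → k) (i : Fin (n + 1)), a i = 1 →
    aeval a (form c) = 0 → (∀ j, aeval a (pderiv j (form c)) = 0) →
    (Matrix.of fun (j l : {j // j ≠ i}) =>
      aeval a (pderiv (j : Fin (n + 1)) (pderiv (l : Fin (n + 1)) (form c)))).det ≠ 0)

theorem GoodForm.fracCharts {c : Mon n d → ℤ} (h : GoodForm c) :
    Pool.Agent.H19.OG.FracCharts (MvPolynomial (Fin n) ℚ ⧸ Ideal.span {deh (form c)}) := by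
  obtain ⟨h1, ⟨D, e, hD, he⟩, h2⟩ := h
  exact Pool.Agent.H96.Nod.fracCharts (form c) d (form_isHomogeneous c) h1 D hD e he h2

theorem goodForm_of {M : ℕ} {c : Mon n d → ℤ}
    (hsm : ∀ p : ℕ, p.Prime → p ≤ M → ∀ (k : Type) [Field k] [CharP k p] (a : Fin (n + 1) → k)
      (i : Fin (n + 1)), a i = 1 → aeval a (form c) = 0 → ∃ j, aeval a (pderiv j (form c)) ≠ 0)
    (hD : ∃ (D : ℤ) (e : ℕ), D ≠ 0 ∧ ∀ i, C D * X i ^ e ∈
      Ideal.span ({form c} ∪ Set.range fun j => pderiv j (form c)))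
    (hirr : Irreducible (deh (form c)))
    (hbad : ∀ i, ∀ p : ℕ, p.Prime → M < p → ¬ BadAt p (c ∘ chartEquiv n d i)) : GoodForm c := by
  refine ⟨hirr, hD, ?_⟩
  intro k _ a i hai h0 h1
  obtain ⟨p, hp⟩ := CharP.exists k
  rcases CharP.char_is_prime_or_zero k p with hpp | hp0
  · rcases le_or_gt p M with hpM | hpM
    · obtain ⟨j, hj⟩ := hsm p hpp hpM k a i hai h0
      exact absurd (h1 j) hj
    · exact det_ne_zero_of_not_badAt hpp (fun i => hbad i p hpp hpM) k a i hai h0 h1
  · exfalso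
    subst hp0
    haveI : CharZero k := CharP.charP_to_charZero k
    obtain ⟨D, e, hD0, he⟩ := hD
    have h2 : ∀ G ∈ Ideal.span ({form c} ∪ Set.range fun j => pderiv j (form c)),
        aeval a G = 0 := by
      intro G hG
      have h3 : Ideal.span ({form c} ∪ Set.range fun j => pderiv j (form c)) ≤
          RingHom.ker (aeval a : MvPolynomial (Fin (n + 1)) ℤ →ₐ[ℤ] k) := by
        rw [Ideal.span_le]
        rintro G (hG | ⟨j, rfl⟩)
        · rw [Set.mem_singleton_iff] at hG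
          rw [hG]
          exact h0
        · exact h1 j
      exact h3 hG
    have h4 := h2 _ (he i)
    rw [map_mul, map_pow, aeval_X, hai, one_pow, mul_one, aeval_C, algebraMap_int_eq,
      eq_intCast] at h4
    exact hD0 (by exact_mod_cast h4)

open Classical in
/-- At least half of the forms in every large box of progressions are good. -/
theorem exists_box (hn : 2 ≤ n) (hd : 2 ≤ d) (hs : ChartSieve n d) :
    ∃ (Q : ℤ) (a : Mon n d → ℤ), 0 < Q ∧ ∀ K : ℕ, (∀ β, |a β| ≤ K) → ∃ s₀ : ℕ, ∀ s ≥ s₀,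
      ∀ A : Mon n d → ℤ, (∀ β, |A β| ≤ K * s) →
      s ^ Fintype.card (Mon n d) ≤
        2 * ((Fintype.piFinset fun β => ap (a β) Q (A β) s).filter GoodForm).card := by
  obtain ⟨C₀, hC₀⟩ := hs
  set M := max d (2 * (n + 1) * (C₀ + 1)) with hM
  have hdM : d ≤ M := le_max_left _ _
  obtain ⟨F, hF, hFQ⟩ := exists_base n d M hn hd hdM
  set Q : ℤ := ((∏ p ∈ (Finset.range (M + 1)).filter Nat.Prime, p : ℕ) : ℤ) with hQ
  have hQpos : 0 < Q := by
    rw [hQ]
    have : 0 < ∏ p ∈ (Finset.range (M + 1)).filter Nat.Prime, p :=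
      Finset.prod_pos fun p hp => (Finset.mem_filter.1 hp).2.pos
    exact_mod_cast this
  have hQ1 : ∀ p : ℕ, p.Prime → p ≤ M → (p : ℤ) ∣ Q := by
    intro p hp hpM
    rw [hQ]
    exact_mod_cast Finset.dvd_prod_of_mem (fun p => p)
      (Finset.mem_filter.2 ⟨Finset.mem_range.2 (by omega), hp⟩)
  have hQ2 : ∀ p : ℕ, p.Prime → (p : ℤ) ∣ Q → p ≤ M := by
    intro p hp hpQ
    rw [hQ] at hpQ
    have h1 : p ∣ ∏ p ∈ (Finset.range (M + 1)).filter Nat.Prime, p := by exact_mod_cast hpQ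
    obtain ⟨q, hq, hpq⟩ := (hp.prime.dvd_finset_prod_iff _).1 h1
    rw [Finset.mem_filter, Finset.mem_range] at hq
    have := Nat.le_of_dvd hq.2.pos hpq
    omega
  set a : Mon n d → ℤ := fun β => coeff (Finsupp.equivFunOnFinite.symm β.1) F with ha
  have hFa : F = form a := form_coeff hF
  refine ⟨Q, a, hQpos, fun K hK => ?_⟩
  obtain ⟨s₀, hs₀⟩ := hC₀ M hdM Q hQpos.ne' hQ2 K
  refine ⟨s₀, fun s hss A hA => ?_⟩
  set B := Fintype.piFinset fun β => ap (a β) Q (A β) s with hB
  set N := Fintype.card (Mon n d) with hN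
  have hBcard : B.card = s ^ N := by
    rw [hB, Fintype.card_piFinset]
    simp only [card_ap _ _ _ hQpos.ne']
    rw [Finset.prod_const, Finset.card_univ]
  -- bad forms in the chart `i`
  let bad : Fin (n + 1) → Finset (Mon n d → ℤ) := fun i =>
    B.filter fun c => ∃ p, p.Prime ∧ M < p ∧ BadAt p (c ∘ chartEquiv n d i)
  have hbadcard : ∀ i, 2 * (n + 1) * (bad i).card ≤ s ^ N := by
    intro i
    have h1 := hs₀ s hss (a ∘ chartEquiv n d i) (A ∘ chartEquiv n d i) (fun α => hK _)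
      (fun α => hA _)
    have hcard : Fintype.card (AMon n d) = N := Fintype.card_congr (chartEquiv n d i)
    rw [hcard] at h1
    have h2 : (bad i).card ≤ ((Fintype.piFinset fun α : AMon n d =>
        ap ((a ∘ chartEquiv n d i) α) Q ((A ∘ chartEquiv n d i) α) s).filter fun c =>
        ∃ p, p.Prime ∧ M < p ∧ BadAt p c).card := by
      refine Finset.card_le_card_of_injOn (fun c => c ∘ chartEquiv n d i) ?_ ?_
      · intro c hc
        rw [Finset.mem_coe, Finset.mem_filter] at hc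
        rw [Finset.mem_coe, Finset.mem_filter, Fintype.mem_piFinset]
        exact ⟨fun α => (Fintype.mem_piFinset.1 hc.1) _, hc.2⟩
      · intro c _ c' _ h
        funext β
        have := congrFun h ((chartEquiv n d i).symm β)
        simpa using this
    have h3 : 2 * (n + 1) * (C₀ + 1) ≤ M := le_max_right _ _
    have h4 : (2 * (n + 1) * (C₀ + 1)) * (bad i).card ≤ (C₀ + 1) * s ^ N :=
      calc (2 * (n + 1) * (C₀ + 1)) * (bad i).card ≤ M * (bad i).card :=
            Nat.mul_le_mul_right _ h3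
        _ ≤ M * _ := Nat.mul_le_mul_left _ h2
        _ ≤ C₀ * s ^ N := h1
        _ ≤ (C₀ + 1) * s ^ N := Nat.mul_le_mul_right _ (Nat.le_succ _)
    have h5 : (C₀ + 1) * (2 * (n + 1) * (bad i).card) ≤ (C₀ + 1) * s ^ N := by
      calc (C₀ + 1) * (2 * (n + 1) * (bad i).card) =
          (2 * (n + 1) * (C₀ + 1)) * (bad i).card := by ring
        _ ≤ _ := h4
    exact Nat.le_of_mul_le_mul_left h5 (Nat.succ_pos _)
  have hsub : B ⊆ B.filter GoodForm ∪ Finset.univ.biUnion bad := by
    intro c hc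
    by_cases hcb : ∃ i, c ∈ bad i
    · obtain ⟨i, hi⟩ := hcb
      exact Finset.mem_union_right _ (Finset.mem_biUnion.2 ⟨i, Finset.mem_univ _, hi⟩)
    · refine Finset.mem_union_left _ (Finset.mem_filter.2 ⟨hc, ?_⟩)
      push Not at hcb
      have hy : ∀ β, ∃ y, c β = a β + Q * y := by
        intro β
        obtain ⟨y, _, _, hy⟩ := mem_ap.1 ((Fintype.mem_piFinset.1 hc) β)
        exact ⟨y, hy.symm⟩
      choose y hy using hy
      have hform : form c = F + C Q * form y := by
        rw [hFa, form, form, form, Finset.mul_sum, ← Finset.sum_add_distrib]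
        refine Finset.sum_congr rfl fun β _ => ?_
        rw [C_mul_monomial, ← map_add, hy β]
      obtain ⟨g1, g2, g3⟩ := hFQ Q hQ1 (form y) (form_isHomogeneous y)
      rw [← hform] at g1 g2 g3
      refine goodForm_of g1 g2 g3 fun i p hp hpM hb => hcb i ?_
      exact Finset.mem_filter.2 ⟨hc, p, hp, hpM, hb⟩
  have h1 := Finset.card_le_card hsub
  rw [hBcard] at h1
  have h2 := h1.trans (Finset.card_union_le _ _)
  have h3 : 2 * (Finset.univ.biUnion bad).card ≤ s ^ N := by
    have h4 : (Finset.univ.biUnion bad).card ≤ ∑ i, (bad i).card := Finset.card_biUnion_le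
    have h5 : (n + 1) * (2 * ∑ i, (bad i).card) ≤ (n + 1) * s ^ N := by
      calc (n + 1) * (2 * ∑ i, (bad i).card) = ∑ i, 2 * (n + 1) * (bad i).card := by
            rw [← Finset.mul_sum]; ring
        _ ≤ ∑ _i : Fin (n + 1), s ^ N := Finset.sum_le_sum fun i _ => hbadcard i
        _ = (n + 1) * s ^ N := by simp
    have h6 := Nat.le_of_mul_le_mul_left h5 (Nat.succ_pos _)
    omega
  omega

end Pool.Agent.H41.PP
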