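import Pool.Agent.H41.PP.Base
import Pool.Agent.H97.PP.Mid

/-!
Forms with given coefficients, their restrictions to the standard affine charts, and the
nodality condition in terms of the charts.
-/

open MvPolynomial

namespace Pool.Agent.H41.PP

open Pool.Agent.H97.PP

variable {n d : ℕ}

/-- Exponents of total degree `d` in `n + 1` variables. -/
abbrev Mon (n d : ℕ) : Type := ↥(Finset.Nat.antidiagonalTuple (n + 1) d)

/-- The form of degree `d` with coefficients `c`. -/
noncomputable def form {R : Type} [CommRing R] (c : Mon n d → R) : MvPolynomial (Fin (n + 1)) R :=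
  ∑ β, monomial (Finsupp.equivFunOnFinite.symm β.1) (c β)

theorem form_isHomogeneous {R : Type} [CommRing R] (c : Mon n d → R) :
    (form c).IsHomogeneous d := by
  refine IsHomogeneous.sum _ _ _ fun β _ => isHomogeneous_monomial _ ?_
  rw [Finsupp.degree_eq_sum]
  exact Finset.Nat.mem_antidiagonalTuple.1 β.2

theorem form_coeff {R : Type} [CommRing R] {F : MvPolynomial (Fin (n + 1)) R}
    (hF : F.IsHomogeneous d) :
    F = form fun β : Mon n d => coeff (Finsupp.equivFunOnFinite.symm β.1) F := by
  classical
  ext m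
  rw [form, coeff_sum]
  simp only [coeff_monomial]
  by_cases hm : m.degree = d
  · have hm' : (⇑m : Fin (n + 1) → ℕ) ∈ Finset.Nat.antidiagonalTuple (n + 1) d := by
      rw [Finset.Nat.mem_antidiagonalTuple, ← hm, Finsupp.degree_eq_sum]
    rw [Finset.sum_eq_single ⟨⇑m, hm'⟩]
    · have : Finsupp.equivFunOnFinite.symm (⇑m) = m := Finsupp.equivFunOnFinite_symm_coe m
      rw [if_pos this, this]
    · intro β _ hβ
      rw [if_neg]
      intro h
      apply hβ
      apply Subtype.ext
      change β.1 = ⇑m
      rw [← h]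
      rfl
    · intro h
      exact absurd (Finset.mem_univ _) h
  · rw [Finset.sum_eq_zero]
    · exact hF.coeff_eq_zero hm
    · intro β _
      rw [if_neg]
      intro h
      apply hm
      rw [← h, Finsupp.degree_eq_sum]
      exact Finset.Nat.mem_antidiagonalTuple.1 β.2

/-- Exponents of degree `d` and exponents of degree at most `d` in one variable less. -/
def chartEquiv (n d : ℕ) (i : Fin (n + 1)) : AMon n d ≃ Mon n d where
  toFun α := ⟨i.insertNth (d - ∑ j, α.1 j) α.1, by
    have h := mem_monLE.1 α.2
    rw [Finset.Nat.mem_antidiagonalTuple, Fin.sum_univ_succAbove _ i]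
    simp only [Fin.insertNth_apply_same, Fin.insertNth_apply_succAbove]
    omega⟩
  invFun β := ⟨i.removeNth β.1, by
    have h := Finset.Nat.mem_antidiagonalTuple.1 β.2
    rw [Fin.sum_univ_succAbove _ i] at h
    rw [mem_monLE]
    simp only [Fin.removeNth]
    omega⟩
  left_inv α := by
    apply Subtype.ext
    simp
  right_inv β := by
    apply Subtype.ext
    have h := Finset.Nat.mem_antidiagonalTuple.1 β.2
    rw [Fin.sum_univ_succAbove _ i] at h
    simp only
    have h2 : d - ∑ j, i.removeNth β.1 j = β.1 i := by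
      simp only [Fin.removeNth]
      omega
    rw [h2]
    exact Fin.insertNth_self_removeNth i β.1

/-- Restriction to the chart where the variable `i` is equal to one. -/
noncomputable def rho (i : Fin (n + 1)) :
    MvPolynomial (Fin (n + 1)) ℤ →ₐ[ℤ] MvPolynomial (Fin n) ℤ :=
  aeval (i.insertNth (α := fun _ => MvPolynomial (Fin n) ℤ) 1 X)

theorem rho_X_same (i : Fin (n + 1)) : rho i (X i) = 1 := by
  rw [rho, aeval_X, Fin.insertNth_apply_same]

theorem rho_X_succAbove (i : Fin (n + 1)) (j : Fin n) : rho i (X (i.succAbove j)) = X j := by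
  rw [rho, aeval_X, Fin.insertNth_apply_succAbove]

theorem rho_form (i : Fin (n + 1)) (c : Mon n d → ℤ) :
    rho i (form c) = aff (c ∘ chartEquiv n d i) := by
  rw [form, map_sum, aff, ← (chartEquiv n d i).sum_comp]
  refine Finset.sum_congr rfl fun α _ => ?_
  rw [rho, aeval_monomial, Finsupp.prod_fintype _ _ (fun _ => pow_zero _),
    Fin.prod_univ_succAbove _ i, Fin.insertNth_apply_same, one_pow, one_mul, mono,
    monomial_eq, C_1, one_mul, Finsupp.prod_fintype _ _ (fun _ => pow_zero _)]
  congr 1
  refine Finset.prod_congr rfl fun j _ => ?_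
  rw [Fin.insertNth_apply_succAbove]
  congr 1
  simp [chartEquiv]

theorem pderiv_rho (i : Fin (n + 1)) (j : Fin n) (F : MvPolynomial (Fin (n + 1)) ℤ) :
    pderiv j (rho i F) = rho i (pderiv (i.succAbove j) F) := by
  classical
  have hX : ∀ m, pderiv j (rho i (X m)) = rho i (pderiv (i.succAbove j) (X m)) := by
    intro m
    by_cases hm : m = i
    · subst hm
      rw [rho_X_same, pderiv_one, pderiv_X, Pi.single_eq_of_ne, map_zero]
      exact (Fin.succAbove_ne m j).symm
    · obtain ⟨l, rfl⟩ := Fin.exists_succAbove_eq hm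
      rw [rho_X_succAbove, pderiv_X, pderiv_X]
      by_cases hl : l = j
      · subst hl
        rw [Pi.single_eq_same, Pi.single_eq_same, map_one]
      · rw [Pi.single_eq_of_ne hl, Pi.single_eq_of_ne, map_zero]
        exact fun h => hl (Fin.succAbove_right_injective h)
  induction F using MvPolynomial.induction_on with
  | C r =>
    rw [pderiv_C, map_zero, rho, aeval_C, algebraMap_eq, pderiv_C]
  | add F G hF hG => rw [map_add, map_add, map_add, map_add, hF, hG]
  | mul_X F m hF =>
    rw [map_mul, pderiv_mul, pderiv_mul, map_add, map_mul, map_mul, hF, hX]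

theorem aeval_rho {k : Type} [Field k] (i : Fin (n + 1)) (a : Fin (n + 1) → k) (hai : a i = 1)
    (F : MvPolynomial (Fin (n + 1)) ℤ) :
    aeval (fun j => a (i.succAbove j)) (rho i F) = aeval a F := by
  have h : (aeval (fun j => a (i.succAbove j)) : MvPolynomial (Fin n) ℤ →ₐ[ℤ] k).comp (rho i) =
      aeval a := by
    apply MvPolynomial.algHom_ext
    intro m
    rw [AlgHom.comp_apply, aeval_X]
    by_cases hm : m = i
    · subst hm
      rw [rho_X_same, map_one, hai]
    · obtain ⟨l, rfl⟩ := Fin.exists_succAbove_eq hm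
      rw [rho_X_succAbove, aeval_X]
  rw [← h, AlgHom.comp_apply]

/-- Nodality in characteristic `p > M` from the absence of bad primes in the charts. -/
theorem det_ne_zero_of_not_badAt {c : Mon n d → ℤ} {p : ℕ} (hp : p.Prime)
    (hbad : ∀ i, ¬ BadAt p (c ∘ chartEquiv n d i)) (k : Type) [Field k] [CharP k p]
    (a : Fin (n + 1) → k) (i : Fin (n + 1)) (hai : a i = 1) (h0 : aeval a (form c) = 0)
    (h1 : ∀ j, aeval a (pderiv j (form c)) = 0) :
    (Matrix.of fun (j l : {j // j ≠ i}) =>
      aeval a (pderiv (j : Fin (n + 1)) (pderiv (l : Fin (n + 1)) (form c)))).det ≠ 0 := by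
  classical
  intro hdet
  apply hbad i
  refine ⟨hp, ?_⟩
  letI := Fact.mk hp
  letI : Algebra (ZMod p) k := ZMod.algebra k p
  set b : Fin n → k := fun j => a (i.succAbove j) with hb
  have key : ∀ f : MvPolynomial (Fin n) ℤ,
      (aeval b : MvPolynomial (Fin n) (ZMod p) →ₐ[ZMod p] k) (map (Int.castRingHom (ZMod p)) f) =
        aeval b f := by
    intro f
    rw [aeval_def, eval₂_map, aeval_def]
    congr 1
    exact RingHom.ext_int _ _
  have haff : aff (fun α => (((c ∘ chartEquiv n d i) α : ℤ) : ZMod p)) =
      map (Int.castRingHom (ZMod p)) (rho i (form c)) := by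
    rw [rho_form, map_aff]
    rfl
  refine ⟨k, inferInstance, inferInstance, aeval b, ?_, fun j => ?_, ?_⟩
  · rw [haff, key, aeval_rho i a hai, h0]
  · rw [haff, pderiv_map, key, pderiv_rho, aeval_rho i a hai, h1]
  · rw [haff, ← map_hess, key, hess]
    have e1 : (aeval b : MvPolynomial (Fin n) ℤ →ₐ[ℤ] k)
        (Matrix.det (Matrix.of fun j l => pderiv j (pderiv l (rho i (form c))))) =
        Matrix.det (Matrix.of fun j l => aeval b (pderiv j (pderiv l (rho i (form c))))) := by
      rw [AlgHom.map_det]
      rfl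
    rw [e1, ← hdet, ← Matrix.det_submatrix_equiv_self (finSuccAboveEquiv i)]
    congr 1
    ext j l
    simp only [Matrix.of_apply, Matrix.submatrix_apply, finSuccAboveEquiv_apply]
    rw [pderiv_rho, pderiv_rho, aeval_rho i a hai]

end Pool.Agent.H41.PP
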