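import Mathlib

/-!
Two explicit forms of degree `d` in `n + 1` variables with integer coefficients which are
smooth in every characteristic not dividing `d` (Fermat), resp. dividing `d` (Klein type).
-/

open MvPolynomial

namespace Pool.Agent.H41.PP

variable {n d : ℕ}

/-- `x_0^d + ... + x_n^d`. -/
noncomputable def fermat (n d : ℕ) : MvPolynomial (Fin (n + 1)) ℤ := ∑ i, X i ^ d

/-- `x_0^d + x_0 x_1^(d-1) + ... + x_(n-1) x_n^(d-1)`. -/
noncomputable def klein (n d : ℕ) : MvPolynomial (Fin (n + 1)) ℤ :=
  X 0 ^ d + ∑ i : Fin n, X i.castSucc * X i.succ ^ (d - 1)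

theorem fermat_isHomogeneous (n d : ℕ) : (fermat n d).IsHomogeneous d :=
  IsHomogeneous.sum _ _ _ fun i _ => isHomogeneous_X_pow i d

theorem klein_isHomogeneous (n : ℕ) {d : ℕ} (hd : 1 ≤ d) : (klein n d).IsHomogeneous d := by
  refine (isHomogeneous_X_pow 0 d).add (IsHomogeneous.sum _ _ _ fun i _ => ?_)
  have h := (isHomogeneous_X ℤ (Fin.castSucc i)).mul (isHomogeneous_X_pow (R := ℤ) i.succ (d - 1))
  rwa [Nat.add_sub_cancel' hd] at h

/-- A point of the (affine cone of the) singular locus of the reduction of `F`. -/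
def SingAt {k : Type*} [Field k] {m : ℕ} (F : MvPolynomial (Fin m) ℤ) (a : Fin m → k) : Prop :=
  aeval a F = 0 ∧ ∀ j, aeval a (pderiv j F) = 0

theorem fermat_smooth {k : Type*} [Field k] (hd : 1 ≤ d) (h : (d : k) ≠ 0) {a : Fin (n + 1) → k}
    (ha : SingAt (fermat n d) a) : a = 0 := by
  funext j
  have h1 := ha.2 j
  simp only [fermat, map_sum, Derivation.leibniz_pow, pderiv_X, smul_eq_mul] at h1
  rw [Finset.sum_eq_single j] at h1
  · simp only [Pi.single_eq_same, mul_one, nsmul_eq_mul, map_mul, map_natCast, map_pow,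
      aeval_X, mul_eq_zero, h, false_or] at h1
    rcases Nat.eq_or_lt_of_le hd with h2 | h2
    · simp [← h2] at h1
    · exact pow_eq_zero_iff (by omega) |>.1 h1
  · intro b _ hb
    simp [Pi.single_eq_of_ne hb]
  · simp

theorem aeval_klein {k : Type*} [Field k] (a : Fin (n + 1) → k) :
    aeval a (klein n d) = a 0 ^ d + ∑ i : Fin n, a i.castSucc * a i.succ ^ (d - 1) := by
  simp [klein, map_sum]

theorem aeval_pderiv_klein {k : Type*} [Field k] (a : Fin (n + 1) → k) (j : Fin (n + 1)) :
    aeval a (pderiv j (klein n d)) = (d : k) * a 0 ^ (d - 1) * (if 0 = j then 1 else 0) +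
      ∑ i : Fin n, (a i.castSucc * (((d - 1 : ℕ) : k) * a i.succ ^ (d - 2) *
        (if i.succ = j then 1 else 0)) + a i.succ ^ (d - 1) *
        (if i.castSucc = j then 1 else 0)) := by
  have hs : ∀ i : Fin (n + 1), (aeval a) (Pi.single (M := fun _ => MvPolynomial (Fin (n + 1)) ℤ)
      j 1 i) = if i = j then 1 else 0 := by
    intro i
    rw [Pi.single_apply]
    split_ifs <;> simp
  simp only [klein, map_add, map_sum, Derivation.leibniz_pow, Derivation.leibniz, pderiv_X,
    smul_eq_mul, nsmul_eq_mul, map_mul, map_natCast, map_pow, aeval_X, hs, mul_assoc,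
    Nat.sub_sub]

theorem klein_smooth {k : Type*} [Field k] (hn : 1 ≤ n) (hd : 2 ≤ d) (h : (d : k) = 0)
    {a : Fin (n + 1) → k} (ha : SingAt (klein n d) a) : a = 0 := by
  obtain ⟨h0, h1⟩ := ha
  rw [aeval_klein] at h0
  -- the derivative at `0`
  have e0 : a ⟨1, by omega⟩ = 0 := by
    have := h1 0
    rw [aeval_pderiv_klein, h] at this
    rw [Finset.sum_eq_single ⟨0, by omega⟩] at this
    · have e1 : Fin.succ (⟨0, by omega⟩ : Fin n) ≠ 0 := Fin.succ_ne_zero _
      have e2 : Fin.castSucc (⟨0, by omega⟩ : Fin n) = 0 := by ext; simp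
      simp only [e1, e2, if_false, if_true, zero_mul, mul_zero, mul_one, zero_add] at this
      exact pow_eq_zero_iff (n := d - 1) (by omega) |>.1 this
    · intro b _ hb
      have e1 : Fin.succ b ≠ 0 := Fin.succ_ne_zero _
      have e2 : Fin.castSucc b ≠ 0 := fun h => hb (by ext; simpa [Fin.ext_iff] using h)
      simp [e1, e2]
    · simp
  -- the derivative at an inner index
  have ei : ∀ j : ℕ, (hj : j + 2 < n + 1) → a ⟨j + 2, hj⟩ ^ (d - 1) +
      a ⟨j, by omega⟩ * (((d - 1 : ℕ) : k) * a ⟨j + 1, by omega⟩ ^ (d - 2)) = 0 := by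
    intro j hj
    have := h1 ⟨j + 1, by omega⟩
    rw [aeval_pderiv_klein, h] at this
    rw [← Finset.add_sum_erase _ _ (Finset.mem_univ (⟨j, by omega⟩ : Fin n)),
      ← Finset.add_sum_erase _ _ (Finset.mem_erase.2 ⟨?_, Finset.mem_univ
        (⟨j + 1, by omega⟩ : Fin n)⟩), Finset.sum_eq_zero] at this
    · simp only [Fin.succ_mk, Fin.castSucc_mk, Fin.mk.injEq, zero_mul, zero_add, if_true,
        mul_one, add_zero] at this
      have n1 : ¬ (j = j + 1) := by omega
      have n2 : ¬ (j + 1 + 1 = j + 1) := by omega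
      rw [if_neg n1, if_neg n2] at this
      simp only [mul_zero, add_zero, zero_add] at this
      rw [add_comm]
      exact this
    · intro b hb
      simp only [Finset.mem_erase, ne_eq, Finset.mem_univ, and_true, Fin.ext_iff] at hb
      have e1 : ¬ Fin.succ b = ⟨j + 1, by omega⟩ := by
        rw [Fin.ext_iff]; simp only [Fin.val_succ]; omega
      have e2 : ¬ Fin.castSucc b = ⟨j + 1, by omega⟩ := by
        rw [Fin.ext_iff]; simp only [Fin.val_castSucc]; omega
      simp [e1, e2]
    · simp [Fin.ext_iff]
  rcases Nat.eq_or_lt_of_le hd with hd2 | hd3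
  · subst hd2
    simp only [Nat.add_one_sub_one, pow_one, Nat.cast_one, Nat.sub_self, pow_zero, mul_one] at ei
    -- odd coordinates vanish, even ones are plus or minus the first
    have key : ∀ j : ℕ, (hj : 2 * j < n + 1) → (a ⟨2 * j, hj⟩ = (-1) ^ j * a 0) ∧
        (∀ hj' : 2 * j + 1 < n + 1, a ⟨2 * j + 1, hj'⟩ = 0) := by
      intro j
      induction j with
      | zero => intro _; exact ⟨by simp, fun _ => e0⟩
      | succ j ih =>
        intro hj
        obtain ⟨i1, i2⟩ := ih (by omega)
        constructor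
        · have := ei (2 * j) (by omega)
          have e : a ⟨2 * (j + 1), hj⟩ = a ⟨2 * j + 2, by omega⟩ := rfl
          rw [e, eq_neg_of_add_eq_zero_left this, i1, pow_succ]
          ring
        · intro hj'
          have := ei (2 * j + 1) (by omega)
          have e : a ⟨2 * (j + 1) + 1, hj'⟩ = a ⟨2 * j + 1 + 2, by omega⟩ := rfl
          rw [e, eq_neg_of_add_eq_zero_left this, i2 (by omega), neg_zero]
    have odd : ∀ j : ℕ, (hj : j < n + 1) → j % 2 = 1 → a ⟨j, hj⟩ = 0 := by
      intro j hj h2
      have := (key (j / 2) (by omega)).2 (by omega)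
      have e : (⟨2 * (j / 2) + 1, by omega⟩ : Fin (n + 1)) = ⟨j, hj⟩ := by ext; simp; omega
      rwa [e] at this
    have a0 : a 0 = 0 := by
      rw [Finset.sum_eq_zero, add_zero] at h0
      · exact pow_eq_zero_iff (by omega) |>.1 h0
      · intro i _
        rcases Nat.mod_two_eq_zero_or_one i with h2 | h2
        · have := odd (i + 1) (by omega) (by omega)
          have e : (⟨i + 1, by omega⟩ : Fin (n + 1)) = i.succ := by ext; simp
          rw [e] at this
          simp [this]
        · have := odd i (by omega) h2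
          have e : (⟨i, by omega⟩ : Fin (n + 1)) = i.castSucc := by ext; simp
          rw [e] at this
          simp [this]
    funext j
    rcases Nat.mod_two_eq_zero_or_one j with h2 | h2
    · have := (key (j / 2) (by omega)).1
      have e : (⟨2 * (j / 2), by omega⟩ : Fin (n + 1)) = j := by ext; simp; omega
      rw [e, a0, mul_zero] at this
      exact this
    · exact odd j j.2 h2
  · have key : ∀ j : ℕ, (hj : j + 1 < n + 1) → a ⟨j + 1, hj⟩ = 0 := by
      intro j
      induction j with
      | zero => intro _; exact e0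
      | succ j ih =>
        intro hj
        have := ei j (by omega)
        rw [ih (by omega), zero_pow (by omega), mul_zero, mul_zero, add_zero] at this
        exact pow_eq_zero_iff (n := d - 1) (by omega) |>.1 this
    have a0 : a 0 = 0 := by
      rw [Finset.sum_eq_zero, add_zero] at h0
      · exact pow_eq_zero_iff (by omega) |>.1 h0
      · intro i _
        have := key i (by omega)
        have e : (⟨i + 1, by omega⟩ : Fin (n + 1)) = i.succ := by ext; simp
        rw [e] at this
        rw [this, zero_pow (by omega), mul_zero]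
    funext j
    refine Fin.cases a0 (fun i => ?_) j
    have := key i (by omega)
    have e : (⟨i + 1, by omega⟩ : Fin (n + 1)) = i.succ := by ext; simp
    rwa [e] at this

end Pool.Agent.H41.PP
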