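import Pool.Agent.H41.PP.Forms

/-!
Irreducibility of the dehomogenised Klein form over every domain (reversed Eisenstein), and
transfer of irreducibility from the reduction modulo a prime to the rational numbers.
-/

open MvPolynomial

namespace Pool.Agent.H41.PP

theorem irreducible_eis {A : Type*} [CommRing A] [IsDomain A] {x b : A} (hx : Prime x)
    (hxb : ¬ x ∣ b) {N : ℕ} (hN : 1 ≤ N) :
    Irreducible (Polynomial.C b * Polynomial.X ^ N + Polynomial.C x) := by
  have hb : b ≠ 0 := fun h => hxb (h ▸ dvd_zero x)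
  have hdeg : (Polynomial.C b * Polynomial.X ^ N + Polynomial.C x).degree = (N : WithBot ℕ) := by
    rw [Polynomial.degree_add_eq_left_of_degree_lt]
    · exact Polynomial.degree_C_mul_X_pow N hb
    · rw [Polynomial.degree_C_mul_X_pow N hb]
      exact lt_of_le_of_lt Polynomial.degree_C_le (by exact_mod_cast hN)
  have hc : ∀ n, (Polynomial.C b * Polynomial.X ^ N + Polynomial.C x).coeff n =
      (if n = N then b else 0) + (if n = 0 then x else 0) := by
    intro n
    rw [Polynomial.coeff_add, Polynomial.coeff_C_mul_X_pow, Polynomial.coeff_C]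
  have hnd : (Polynomial.C b * Polynomial.X ^ N + Polynomial.C x).natDegree = N :=
    Polynomial.natDegree_eq_of_degree_eq_some hdeg
  refine Polynomial.irreducible_of_eisenstein_criterion (P := Ideal.span {x})
    ((Ideal.span_singleton_prime hx.ne_zero).2 hx) ?_ ?_ ?_ ?_ ?_
  · rw [Polynomial.leadingCoeff, hnd, hc, if_pos rfl, if_neg (by omega), add_zero,
      Ideal.mem_span_singleton]
    exact hxb
  · intro n hn
    rw [hdeg] at hn
    have hn' : n < N := by exact_mod_cast hn
    rw [hc, if_neg hn'.ne, zero_add, Ideal.mem_span_singleton]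
    split_ifs
    · exact dvd_rfl
    · exact dvd_zero x
  · rw [hdeg]
    exact_mod_cast hN
  · rw [hc, if_neg (by omega), if_pos rfl, zero_add, Ideal.span_singleton_pow,
      Ideal.mem_span_singleton]
    rintro ⟨c, hc⟩
    have h1 : x * (x * c) = x * 1 := by
      rw [mul_one]
      nth_rewrite 3 [hc]
      ring
    exact hx.not_unit (IsUnit.of_mul_eq_one c (mul_left_cancel₀ hx.ne_zero h1))
  · intro r hr
    have h1 : r ∣ b := by
      obtain ⟨q, hq⟩ := hr
      have := hc N
      rw [hq, Polynomial.coeff_C_mul, if_pos rfl, if_neg (by omega), add_zero] at this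
      exact ⟨_, this.symm⟩
    have h2 : r ∣ x := by
      obtain ⟨q, hq⟩ := hr
      have := hc 0
      rw [hq, Polynomial.coeff_C_mul, if_neg (by omega), if_pos rfl, zero_add] at this
      exact ⟨_, this.symm⟩
    obtain ⟨c, hc2⟩ := h2
    rcases hx.irreducible.isUnit_or_isUnit hc2 with h | h
    · exact h
    · exfalso
      apply hxb
      refine dvd_trans ?_ h1
      rw [hc2]
      exact (h.mul_right_dvd).2 dvd_rfl

theorem irreducible_rev {A : Type*} [CommRing A] [IsDomain A] {x b : A} (hx : Prime x)
    (hxb : ¬ x ∣ b) {N : ℕ} (hN : 1 ≤ N) :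
    Irreducible (Polynomial.C x * Polynomial.X ^ N + Polynomial.C b) := by
  have hb : b ≠ 0 := fun h => hxb (h ▸ dvd_zero x)
  have hdeg : (Polynomial.C x * Polynomial.X ^ N + Polynomial.C b).degree = (N : WithBot ℕ) := by
    rw [Polynomial.degree_add_eq_left_of_degree_lt]
    · exact Polynomial.degree_C_mul_X_pow N hx.ne_zero
    · rw [Polynomial.degree_C_mul_X_pow N hx.ne_zero]
      exact lt_of_le_of_lt Polynomial.degree_C_le (by exact_mod_cast hN)
  have hnd : (Polynomial.C x * Polynomial.X ^ N + Polynomial.C b).natDegree = N :=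
    Polynomial.natDegree_eq_of_degree_eq_some hdeg
  have hc : ∀ n, (Polynomial.C x * Polynomial.X ^ N + Polynomial.C b).coeff n =
      (if n = N then x else 0) + (if n = 0 then b else 0) := by
    intro n
    rw [Polynomial.coeff_add, Polynomial.coeff_C_mul_X_pow, Polynomial.coeff_C]
  have hrev : (Polynomial.C x * Polynomial.X ^ N + Polynomial.C b).reverse =
      Polynomial.C b * Polynomial.X ^ N + Polynomial.C x := by
    ext n
    rw [Polynomial.coeff_reverse, hnd, hc, Polynomial.coeff_add, Polynomial.coeff_C_mul_X_pow,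
      Polynomial.coeff_C]
    rcases le_or_gt n N with h | h
    · rw [Polynomial.revAt_le h]
      rcases Nat.eq_zero_or_pos n with h0 | h0
      · subst h0
        simp [show N ≠ 0 by omega, show (0 : ℕ) ≠ N by omega]
      · rcases Nat.eq_or_lt_of_le h with h1 | h1
        · subst h1
          simp [show n ≠ 0 by omega, show (0 : ℕ) ≠ n by omega]
        · simp [show N - n ≠ N by omega, show N - n ≠ 0 by omega, show n ≠ N by omega,
            show n ≠ 0 by omega]
    · rw [Polynomial.revAt_eq_self_of_lt h]
      simp [show n ≠ N by omega, show n ≠ 0 by omega]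
  have hirr := irreducible_eis hx hxb hN
  rw [← hrev] at hirr
  rw [irreducible_iff]
  refine ⟨fun h => ?_, fun u v huv => ?_⟩
  · have := Polynomial.natDegree_eq_zero_of_isUnit h
    omega
  · have h0 : u.coeff 0 * v.coeff 0 ≠ 0 := by
      rw [← Polynomial.mul_coeff_zero, ← huv, hc, if_neg (by omega), if_pos rfl, zero_add]
      exact hb
    have key : ∀ w : Polynomial A, w.coeff 0 ≠ 0 → IsUnit w.reverse → IsUnit w := by
      intro w hw hu
      have h1 := Polynomial.natDegree_eq_zero_of_isUnit hu
      have h2 : w.natTrailingDegree = 0 := by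
        have := Polynomial.natTrailingDegree_le_of_ne_zero hw
        omega
      have h3 := Polynomial.natDegree_eq_reverse_natDegree_add_natTrailingDegree w
      rw [h1, h2] at h3
      rw [Polynomial.eq_C_of_natDegree_eq_zero h3] at hu ⊢
      rwa [Polynomial.reverse_C] at hu
    rw [huv, Polynomial.reverse_mul_of_domain] at hirr
    rcases hirr.isUnit_or_isUnit rfl with h | h
    · exact Or.inl (key u (left_ne_zero_of_mul h0) h)
    · exact Or.inr (key v (right_ne_zero_of_mul h0) h)

/-- Dehomogenisation at the first variable. -/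
noncomputable def dehom (R : Type*) [CommRing R] {n : ℕ} (F : MvPolynomial (Fin (n + 1)) ℤ) :
    MvPolynomial (Fin n) R :=
  aeval (Fin.cons 1 X : Fin (n + 1) → MvPolynomial (Fin n) R) F

theorem dehom_klein (R : Type*) [CommRing R] (n d : ℕ) :
    dehom R (klein n d) = 1 + ∑ i : Fin n,
      (Fin.cons 1 X : Fin (n + 1) → MvPolynomial (Fin n) R) i.castSucc * X i ^ (d - 1) := by
  simp [dehom, klein, map_sum]

theorem dehom_klein_irreducible (R : Type*) [CommRing R] [IsDomain R] {n d : ℕ} (hn : 2 ≤ n)
    (hd : 2 ≤ d) : Irreducible (dehom R (klein n d)) := by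
  obtain ⟨l, rfl⟩ : ∃ l, n = l + 2 := ⟨n - 2, by omega⟩
  let φ := (renameEquiv R (Fin.revPerm (n := l + 2))).trans (finSuccEquiv R (l + 1))
  have hφX0 : φ (X (Fin.last (l + 1))) = Polynomial.X := by
    simp only [φ, AlgEquiv.trans_apply, renameEquiv_apply, rename_X, Fin.revPerm_apply]
    rw [Fin.rev_last, finSuccEquiv_X_zero]
  have hφX : ∀ j : Fin (l + 1), φ (X j.castSucc) = Polynomial.C (X j.rev) := by
    intro j
    simp only [φ, AlgEquiv.trans_apply, renameEquiv_apply, rename_X, Fin.revPerm_apply]
    rw [Fin.rev_castSucc, finSuccEquiv_X_succ]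
  set b : MvPolynomial (Fin (l + 1)) R := 1 + ∑ j : Fin (l + 1),
    (Fin.cons 1 (fun j' => X j'.rev) : Fin (l + 2) → MvPolynomial (Fin (l + 1)) R) j.castSucc *
      X j.rev ^ (d - 1) with hb
  have himg : φ (dehom R (klein (l + 2) d)) =
      Polynomial.C (X 0) * Polynomial.X ^ (d - 1) + Polynomial.C b := by
    rw [dehom_klein, Fin.sum_univ_castSucc, map_add, map_one, map_add, map_sum, map_mul, map_pow,
      hφX0]
    have e1 : (Fin.cons 1 X : Fin (l + 3) → MvPolynomial (Fin (l + 2)) R)
        (Fin.castSucc (Fin.last (l + 1))) = X (Fin.castSucc (Fin.last l)) := by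
      rw [show Fin.castSucc (Fin.last (l + 1)) = Fin.succ (Fin.castSucc (Fin.last l)) from rfl,
        Fin.cons_succ]
    rw [e1, hφX, Fin.rev_last]
    have e2 : ∀ j : Fin (l + 1), φ ((Fin.cons 1 X : Fin (l + 3) → MvPolynomial (Fin (l + 2)) R)
        j.castSucc.castSucc * X j.castSucc ^ (d - 1)) =
        Polynomial.C ((Fin.cons 1 (fun j' => X j'.rev) :
          Fin (l + 2) → MvPolynomial (Fin (l + 1)) R) j.castSucc * X j.rev ^ (d - 1)) := by
      intro j
      rw [map_mul, map_pow, hφX, Polynomial.C_mul, Polynomial.C_pow]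
      congr 1
      refine Fin.cases ?_ (fun j' => ?_) j
      · simp
      · rw [show (Fin.castSucc (Fin.castSucc (Fin.succ j'))) =
          Fin.succ (Fin.castSucc (Fin.castSucc j')) from rfl, Fin.cons_succ, hφX,
          show Fin.castSucc (Fin.succ j') = Fin.succ (Fin.castSucc j') from rfl, Fin.cons_succ]
    rw [Finset.sum_congr rfl fun j _ => e2 j, hb, map_add, map_one, map_sum]
    ring
  have h0 : constantCoeff b = 1 := by
    rw [hb, map_add, map_one, map_sum, Finset.sum_eq_zero, add_zero]
    intro j _
    rw [map_mul, map_pow, constantCoeff_X, zero_pow (by omega), mul_zero]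
  have hX : ¬ (X 0 : MvPolynomial (Fin (l + 1)) R) ∣ b := by
    rintro ⟨c, hc⟩
    rw [hc, map_mul, constantCoeff_X, zero_mul] at h0
    exact zero_ne_one h0
  have := irreducible_rev (N := d - 1) (X_prime (R := R) (i := (0 : Fin (l + 1)))) hX (by omega)
  rw [← himg] at this
  exact (MulEquiv.irreducible_iff φ.toMulEquiv).1 this

theorem le_totalDegree_dehom_klein (R : Type*) [CommRing R] [Nontrivial R] {n d : ℕ} (hn : 2 ≤ n)
    (hd : 2 ≤ d) : d ≤ (dehom R (klein n d)).totalDegree := by
  obtain ⟨l, rfl⟩ : ∃ l, n = l + 2 := ⟨n - 2, by omega⟩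
  set m : Fin (l + 2) →₀ ℕ := Finsupp.single (Fin.castSucc (Fin.last l)) 1 +
    Finsupp.single (Fin.last (l + 1)) (d - 1) with hm
  have hml : m (Fin.last (l + 1)) = d - 1 := by
    rw [hm, Finsupp.add_apply, Finsupp.single_eq_same, Finsupp.single_eq_of_ne, zero_add]
    exact (Fin.castSucc_lt_last _).ne'
  have hcoef : coeff m (dehom R (klein (l + 2) d)) = 1 := by
    rw [dehom_klein, Fin.sum_univ_castSucc, coeff_add, coeff_add, coeff_sum,
      Finset.sum_eq_zero, zero_add]
    · have e1 : (Fin.cons 1 X : Fin (l + 3) → MvPolynomial (Fin (l + 2)) R)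
          (Fin.castSucc (Fin.last (l + 1))) = X (Fin.castSucc (Fin.last l)) := by
        rw [show Fin.castSucc (Fin.last (l + 1)) = Fin.succ (Fin.castSucc (Fin.last l)) from rfl,
          Fin.cons_succ]
      rw [e1, X_pow_eq_monomial, X, monomial_mul, one_mul, coeff_monomial, if_pos hm.symm,
        coeff_one, if_neg, zero_add]
      intro h
      have := hml
      rw [← h, Finsupp.zero_apply] at this
      omega
    · intro j _
      have h1 : (X j.castSucc ^ (d - 1) : MvPolynomial (Fin (l + 2)) R).degreeOf
          (Fin.last (l + 1)) = 0 := by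
        rw [X_pow_eq_monomial, degreeOf_monomial_eq _ _ one_ne_zero, Finsupp.single_eq_of_ne]
        exact (Fin.castSucc_lt_last _).ne'
      have h2 : ((Fin.cons 1 X : Fin (l + 3) → MvPolynomial (Fin (l + 2)) R)
          j.castSucc.castSucc).degreeOf (Fin.last (l + 1)) = 0 := by
        refine Fin.cases ?_ (fun j' => ?_) j
        · simp
        · rw [show (Fin.castSucc (Fin.castSucc (Fin.succ j'))) =
            Fin.succ (Fin.castSucc (Fin.castSucc j')) from rfl, Fin.cons_succ, degreeOf_X,
            if_neg]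
          exact (Fin.castSucc_lt_last _).ne'
      by_contra hne
      have h3 := monomial_le_degreeOf (Fin.last (l + 1)) (mem_support_iff.2 hne)
      have h4 := degreeOf_mul_le (Fin.last (l + 1))
        ((Fin.cons 1 X : Fin (l + 3) → MvPolynomial (Fin (l + 2)) R) j.castSucc.castSucc)
        (X j.castSucc ^ (d - 1))
      omega
  have h1 := le_totalDegree (s := m) (mem_support_iff.2 (by rw [hcoef]; exact one_ne_zero))
  have h2 : (m.sum fun _ e => e) = d := by
    rw [hm, Finsupp.sum_add_index' (fun _ => rfl) (fun _ _ _ => rfl),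
      Finsupp.sum_single_index rfl, Finsupp.sum_single_index rfl]
    omega
  omega

end Pool.Agent.H41.PP
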