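import Pool.Agent.H41.PP.Smooth

/-!
Nullstellensatz with integer denominators: a form over `Z` without singular points over the
algebraic numbers has `D X_i^e` in the ideal of the form and its partial derivatives.
-/

open MvPolynomial

namespace Pool.Agent.H41.PP

attribute [local instance] MvPolynomial.algebraMvPolynomial

theorem exists_D {m : ℕ} {F : MvPolynomial (Fin m) ℤ}
    (h : ∀ (a : Fin m → AlgebraicClosure ℚ), SingAt F a → a = 0) :
    ∃ D : ℤ, D ≠ 0 ∧ ∃ e : ℕ, ∀ i,
      C D * X i ^ e ∈ Ideal.span ({F} ∪ Set.range fun j => pderiv j F) := by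
  classical
  set I : Ideal (MvPolynomial (Fin m) ℤ) := Ideal.span ({F} ∪ Set.range fun j => pderiv j F)
    with hI
  let J : Ideal (MvPolynomial (Fin m) ℚ) :=
    Ideal.map (algebraMap (MvPolynomial (Fin m) ℤ) (MvPolynomial (Fin m) ℚ)) I
  have hJ0 : zeroLocus (AlgebraicClosure ℚ) J ⊆ {0} := by
    intro a ha
    refine h a ⟨?_, fun j => ?_⟩
    · have h1 := ha (algebraMap (MvPolynomial (Fin m) ℤ) (MvPolynomial (Fin m) ℚ) F)
        (Ideal.mem_map_of_mem _ (Ideal.subset_span (Or.inl rfl)))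
      rw [algebraMap_def, aeval_map_algebraMap] at h1
      exact h1
    · have h1 := ha (algebraMap (MvPolynomial (Fin m) ℤ) (MvPolynomial (Fin m) ℚ) (pderiv j F))
        (Ideal.mem_map_of_mem _ (Ideal.subset_span (Or.inr ⟨j, rfl⟩)))
      rw [algebraMap_def, aeval_map_algebraMap] at h1
      exact h1
  have hrad : ∀ i, (X i : MvPolynomial (Fin m) ℚ) ∈ J.radical := by
    intro i
    rw [← vanishingIdeal_zeroLocus_eq_radical (K := AlgebraicClosure ℚ), mem_vanishingIdeal_iff]
    intro a ha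
    have := hJ0 ha
    rw [Set.mem_singleton_iff] at this
    simp [this]
  choose e he using hrad
  have hloc := MvPolynomial.isLocalization (σ := Fin m) (nonZeroDivisors ℤ) ℚ
  have hD : ∀ i, ∃ D : ℤ, D ≠ 0 ∧ C D * X i ^ e i ∈ I := by
    intro i
    obtain ⟨⟨x, s⟩, hx⟩ := (IsLocalization.mem_map_algebraMap_iff
      ((nonZeroDivisors ℤ).map (C (σ := Fin m))) (MvPolynomial (Fin m) ℚ)).1 (he i)
    obtain ⟨D, hD, hs⟩ := s.2
    refine ⟨D, nonZeroDivisors.ne_zero hD, ?_⟩
    have hinj : Function.Injective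
        (algebraMap (MvPolynomial (Fin m) ℤ) (MvPolynomial (Fin m) ℚ)) :=
      map_injective _ (algebraMap ℤ ℚ).injective_int
    have : X i ^ e i * C D = (x : MvPolynomial (Fin m) ℤ) := by
      apply hinj
      rw [← hx, map_mul, map_pow, ← hs]
      congr 2
      rw [algebraMap_def, map_X]
    rw [mul_comm, this]
    exact x.2
  choose D hD0 hD using hD
  refine ⟨∏ i, D i, Finset.prod_ne_zero_iff.2 fun i _ => hD0 i, Finset.univ.sup e, fun i => ?_⟩
  have h1 : e i ≤ Finset.univ.sup e := Finset.le_sup (Finset.mem_univ i)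
  have h2 : (C (∏ i, D i) * X i ^ Finset.univ.sup e : MvPolynomial (Fin m) ℤ) =
      (C (∏ j ∈ Finset.univ.erase i, D j) * X i ^ (Finset.univ.sup e - e i)) *
        (C (D i) * X i ^ e i) := by
    rw [← Finset.mul_prod_erase Finset.univ D (Finset.mem_univ i), C_mul,
      show X i ^ Finset.univ.sup e = (X i ^ (Finset.univ.sup e - e i) * X i ^ e i :
        MvPolynomial (Fin m) ℤ) by rw [← pow_add, Nat.sub_add_cancel h1]]
    ring
  rw [h2]
  exact Ideal.mul_mem_left _ _ (hD i)

end Pool.Agent.H41.PP
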