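import Pool.Agent.H41.PP.Box

/-!
A positive proportion of the forms with coefficients in a large real box is good.
-/

open MvPolynomial

namespace Pool.Agent.H41.PP

open Pool.Agent.H97.PP Pool.Agent.H96.Nod

variable {n d : ℕ}

theorem exists_delta (hn : 2 ≤ n) (hd : 2 ≤ d) (hs : ChartSieve n d) :
    ∃ δ : ℝ, 0 < δ ∧ ∀ lo hi : Mon n d → ℝ, (∀ β, lo β < hi β) → ∃ H₀ : ℝ, ∀ H ≥ H₀,
      δ * ∏ β, (H * (hi β - lo β)) ≤
        (Nat.card {c : Mon n d → ℤ // (∀ β, H * lo β ≤ c β ∧ (c β : ℝ) ≤ H * hi β) ∧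
          GoodForm c} : ℝ) := by
  classical
  obtain ⟨Q, a, hQ, hbox⟩ := exists_box hn hd hs
  set N := Fintype.card (Mon n d) with hN
  have hQr : (0 : ℝ) < Q := by exact_mod_cast hQ
  have hQ1 : (1 : ℝ) ≤ Q := by exact_mod_cast hQ
  refine ⟨(1 / 2) * (1 / (2 * Q)) ^ N, by positivity, fun lo hi hlh => ?_⟩
  obtain ⟨B, hB1, hBa, hBlo, hBhi⟩ : ∃ B : ℝ, 1 ≤ B ∧ (∀ β, |(a β : ℝ)| ≤ B) ∧
      (∀ β, |lo β| ≤ B) ∧ (∀ β, |hi β| ≤ B) := by
    have hnn : ∀ β ∈ (Finset.univ : Finset (Mon n d)), 0 ≤ |(a β : ℝ)| + |lo β| + |hi β| :=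
      fun β _ => by positivity
    have hle : ∀ β, |(a β : ℝ)| + |lo β| + |hi β| ≤ ∑ β, (|(a β : ℝ)| + |lo β| + |hi β|) :=
      fun β => Finset.single_le_sum hnn (Finset.mem_univ β)
    refine ⟨1 + ∑ β, (|(a β : ℝ)| + |lo β| + |hi β|), ?_, fun β => ?_, fun β => ?_, fun β => ?_⟩
    · have := Finset.sum_nonneg hnn
      linarith
    · have h1 := hle β
      have h2 := abs_nonneg (lo β)
      have h3 := abs_nonneg (hi β)
      linarith
    · have h1 := hle β
      have h2 := abs_nonneg (a β : ℝ)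
      have h3 := abs_nonneg (hi β)
      linarith
    · have h1 := hle β
      have h2 := abs_nonneg (a β : ℝ)
      have h3 := abs_nonneg (lo β)
      linarith
  obtain ⟨w, hw0, hw⟩ : ∃ w : ℝ, 0 < w ∧ ∀ β, w ≤ hi β - lo β := by
    rcases isEmpty_or_nonempty (Mon n d) with h | h
    · exact ⟨1, one_pos, fun β => (h.false β).elim⟩
    · obtain ⟨β₀, hβ₀⟩ := Finite.exists_min (fun β => hi β - lo β)
      exact ⟨_, sub_pos.2 (hlh β₀), hβ₀⟩
  set ε : ℝ := w / (4 * Q) with hε
  have hε0 : 0 < ε := by positivity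
  set K : ℕ := ⌈20 * B / ε⌉₊ + ⌈B⌉₊ with hK
  have hKa : ∀ β, |a β| ≤ (K : ℤ) := by
    intro β
    have h1 := hBa β
    have h2 := Nat.le_ceil B
    have h3 : (|a β| : ℝ) ≤ (K : ℝ) := by
      rw [hK]
      push_cast
      have h4 : (0 : ℝ) ≤ (⌈20 * B / ε⌉₊ : ℝ) := Nat.cast_nonneg _
      linarith
    exact_mod_cast h3
  have hKB : 20 * B ≤ K * ε := by
    have h1 := Nat.le_ceil (20 * B / ε)
    have h2 : 20 * B / ε ≤ K := by
      rw [hK]
      push_cast
      have h4 : (0 : ℝ) ≤ (⌈B⌉₊ : ℝ) := Nat.cast_nonneg _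
      linarith
    rwa [div_le_iff₀ hε0] at h2
  obtain ⟨s₀, hs₀⟩ := hbox K hKa
  refine ⟨max (max 1 (2 / ε)) (max ((s₀ + 1) / ε) (4 * Q / w)), fun H hH => ?_⟩
  have hH1 : 1 ≤ H := (le_max_left _ _).trans ((le_max_left _ _).trans hH)
  have hH2 : 2 ≤ ε * H := by
    have := (le_max_right _ _).trans ((le_max_left _ _).trans hH)
    rw [div_le_iff₀ hε0] at this
    linarith
  have hH3 : (s₀ : ℝ) + 1 ≤ ε * H := by
    have := (le_max_left _ _).trans ((le_max_right _ _).trans hH)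
    rw [div_le_iff₀ hε0] at this
    linarith
  have hH4 : 4 * Q ≤ w * H := by
    have := (le_max_right _ _).trans ((le_max_right _ _).trans hH)
    rw [div_le_iff₀ hw0] at this
    linarith
  have hH0 : 0 < H := by linarith
  set s : ℕ := ⌊ε * H⌋₊ with hsdef
  have hs_le : (s : ℝ) ≤ ε * H := Nat.floor_le (by positivity)
  have hs_lt : ε * H < s + 1 := Nat.lt_floor_add_one _
  have hs_ge : ε * H / 2 ≤ s := by linarith
  have hs1 : (1 : ℝ) ≤ s := by linarith
  have hs0 : (0 : ℝ) < s := by linarith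
  have hss : s ≥ s₀ := by
    have : (s₀ : ℝ) ≤ s := by linarith
    exact_mod_cast this
  set L : Mon n d → ℤ := fun β => ⌈(H * lo β - a β) / Q⌉ with hL
  set W : Mon n d → ℝ := fun β => H * (hi β - lo β) / Q with hW
  set k : Mon n d → ℕ := fun β => ⌊(W β - 1) / s⌋₊ with hk
  have hW4 : ∀ β, 4 ≤ W β := by
    intro β
    rw [hW]
    simp only
    rw [le_div_iff₀ hQr]
    have h1 := mul_le_mul_of_nonneg_left (hw β) hH0.le
    linarith
  have hWs : ∀ β, 4 * (s : ℝ) ≤ W β := by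
    intro β
    rw [hW]
    simp only
    rw [le_div_iff₀ hQr]
    have h1 := mul_le_mul_of_nonneg_left (hw β) hH0.le
    have h2 : 4 * (s : ℝ) * Q ≤ 4 * (ε * H) * Q := by gcongr
    have h3 : 4 * (ε * H) * Q = H * w := by
      rw [hε]; field_simp
    linarith
  have hk_le : ∀ β, (k β : ℝ) * s ≤ W β - 1 := by
    intro β
    have h1 : (k β : ℝ) ≤ (W β - 1) / s := by
      apply Nat.floor_le
      have := hW4 β
      apply div_nonneg (by linarith) hs0.le
    rwa [le_div_iff₀ hs0] at h1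
  have hk_ge : ∀ β, W β / 2 ≤ (k β : ℝ) * s := by
    intro β
    have h1 : (W β - 1) / s < k β + 1 := Nat.lt_floor_add_one _
    rw [div_lt_iff₀ hs0] at h1
    have h2 := hW4 β
    have h3 := hWs β
    nlinarith
  set T : Finset (Mon n d → ℕ) := Fintype.piFinset fun β => Finset.range (k β) with hT
  set G : (Mon n d → ℕ) → Finset (Mon n d → ℤ) := fun t =>
    (Fintype.piFinset fun β => ap (a β) Q (L β + t β * s) s).filter GoodForm with hG
  -- bounds for the left ends
  have hLlo : ∀ β, (H * lo β - a β) / Q ≤ L β := fun β => Int.le_ceil _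
  have hLhi : ∀ β, (L β : ℝ) < (H * lo β - a β) / Q + 1 := fun β => Int.ceil_lt_add_one _
  have hfrac : ∀ β, |(H * lo β - a β) / Q| ≤ 2 * B * H := by
    intro β
    rw [abs_div, abs_of_pos hQr, div_le_iff₀ hQr]
    have h1 : |H * lo β - a β| ≤ H * B + B := by
      refine (abs_sub _ _).trans ?_
      rw [abs_mul, abs_of_pos hH0]
      have := mul_le_mul_of_nonneg_left (hBlo β) hH0.le
      have := hBa β
      linarith
    have h2 : B ≤ H * B := by nlinarith
    have h3 : 2 * B * H ≤ 2 * B * H * Q := by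
      have : 0 ≤ 2 * B * H := by positivity
      nlinarith
    linarith
  have hWle : ∀ β, W β ≤ 2 * B * H := by
    intro β
    rw [hW]
    simp only
    rw [div_le_iff₀ hQr]
    have h1 := abs_le.1 (hBlo β)
    have h2 := abs_le.1 (hBhi β)
    have h3 : H * (hi β - lo β) ≤ H * (2 * B) := by
      apply mul_le_mul_of_nonneg_left _ hH0.le
      linarith
    have h4 : 2 * B * H ≤ 2 * B * H * Q := by
      have : 0 ≤ 2 * B * H := by positivity
      nlinarith
    linarith
  have hGcard : ∀ t ∈ T, s ^ N ≤ 2 * (G t).card := by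
    intro t ht
    refine hs₀ s hss (fun β => L β + t β * s) fun β => ?_
    have htk : t β < k β := Finset.mem_range.1 (Fintype.mem_piFinset.1 ht β)
    have h1 := abs_le.1 (hfrac β)
    have h2 : (t β : ℝ) * s ≤ W β - 1 := by
      refine le_trans ?_ (hk_le β)
      have : (t β : ℝ) ≤ k β := by exact_mod_cast htk.le
      gcongr
    have h3 : (0 : ℝ) ≤ (t β : ℝ) * s := by positivity
    have h4 := hWle β
    have h5 := hLlo β
    have h6 := hLhi β
    have h7 : (1 : ℝ) ≤ B * H := by nlinarith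
    have h8 : 10 * B * H ≤ K * s := by
      have e1 : 20 * B * H ≤ K * ε * H := by nlinarith
      have e2 : (K : ℝ) * (ε * H / 2) ≤ K * s := by gcongr
      linarith
    have h9 : (|(L β + t β * s : ℤ)| : ℝ) ≤ K * s := by
      push_cast
      rw [abs_le]
      constructor <;> nlinarith
    exact_mod_cast h9
  have hdisj : ∀ t ∈ T, ∀ t' ∈ T, t ≠ t' → Disjoint (G t) (G t') := by
    intro t _ t' _ htt
    rw [Finset.disjoint_left]
    intro c hc hc'
    apply htt
    funext β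
    obtain ⟨y, hy1, hy2, hy3⟩ := mem_ap.1 (Fintype.mem_piFinset.1 (Finset.mem_filter.1 hc).1 β)
    obtain ⟨y', hy1', hy2', hy3'⟩ :=
      mem_ap.1 (Fintype.mem_piFinset.1 (Finset.mem_filter.1 hc').1 β)
    have hyy : y = y' := by
      have : Q * y = Q * y' := by linarith
      exact mul_left_cancel₀ hQ.ne' this
    subst hyy
    have hsZ : (0 : ℤ) < s := by exact_mod_cast hs0
    have e1 : (t β : ℤ) < t' β + 1 := by
      have : (t β : ℤ) * s < (t' β + 1) * s := by linarith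
      exact lt_of_mul_lt_mul_right this hsZ.le
    have e2 : (t' β : ℤ) < t β + 1 := by
      have : (t' β : ℤ) * s < (t β + 1) * s := by linarith
      exact lt_of_mul_lt_mul_right this hsZ.le
    omega
  have hsub : ∀ c ∈ T.biUnion G, (∀ β, H * lo β ≤ c β ∧ (c β : ℝ) ≤ H * hi β) ∧ GoodForm c := by
    intro c hc
    obtain ⟨t, ht, hct⟩ := Finset.mem_biUnion.1 hc
    obtain ⟨hc1, hc2⟩ := Finset.mem_filter.1 hct
    refine ⟨fun β => ?_, hc2⟩
    obtain ⟨y, hy1, hy2, hy3⟩ := mem_ap.1 (Fintype.mem_piFinset.1 hc1 β)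
    have htk : t β < k β := Finset.mem_range.1 (Fintype.mem_piFinset.1 ht β)
    have hcr : (c β : ℝ) = a β + Q * y := by rw [← hy3]; push_cast; ring
    have h0 : (0 : ℤ) ≤ t β * s := by positivity
    have hyL : (L β : ℝ) ≤ y := by
      have : L β ≤ y := by linarith
      exact_mod_cast this
    have hyU : (y : ℝ) ≤ L β + k β * s - 1 := by
      have e1 : (t β : ℤ) + 1 ≤ k β := by exact_mod_cast htk
      have e2 : ((t β : ℤ) + 1) * s ≤ k β * s := by
        apply mul_le_mul_of_nonneg_right e1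
        positivity
      have e3 : y ≤ L β + k β * s - 1 := by linarith
      exact_mod_cast e3
    constructor
    · have h1 := (hLlo β).trans hyL
      rw [div_le_iff₀ hQr] at h1
      rw [hcr]
      linarith
    · have h1 := hk_le β
      have h2 := hLhi β
      have h3 : (y : ℝ) ≤ (H * lo β - a β) / Q + W β := by linarith
      have h4 : (H * lo β - a β) / Q + W β = (H * hi β - a β) / Q := by
        rw [hW]
        simp only
        rw [← add_div]
        congr 1
        ring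
      rw [h4, le_div_iff₀ hQr] at h3
      rw [hcr]
      linarith
  have hfin : {c : Mon n d → ℤ | (∀ β, H * lo β ≤ c β ∧ (c β : ℝ) ≤ H * hi β) ∧
      GoodForm c}.Finite := by
    refine Set.Finite.subset (Set.Finite.pi' (fun β => Set.finite_Icc ⌊H * lo β⌋ ⌈H * hi β⌉)) ?_
    intro c hc β
    obtain ⟨h1, h2⟩ := hc.1 β
    refine ⟨?_, ?_⟩
    · have := (Int.floor_le (H * lo β)).trans h1
      exact_mod_cast this
    · have := h2.trans (Int.le_ceil (H * hi β))
      exact_mod_cast this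
  have hle : (T.biUnion G).card ≤ Nat.card {c : Mon n d → ℤ //
      (∀ β, H * lo β ≤ c β ∧ (c β : ℝ) ≤ H * hi β) ∧ GoodForm c} := by
    have h1 := Nat.card_mono hfin (s := ((T.biUnion G : Finset (Mon n d → ℤ)) : Set _))
      (fun c hc => hsub c hc)
    have h2 : Nat.card ((T.biUnion G : Finset (Mon n d → ℤ)) : Set (Mon n d → ℤ)) =
        (T.biUnion G).card := by
      rw [Nat.card_coe_set_eq, Set.ncard_coe_finset]
    rw [h2] at h1
    exact h1
  have hcard : (T.biUnion G).card = ∑ t ∈ T, (G t).card := Finset.card_biUnion hdisj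
  have hTcard : T.card = ∏ β, k β := by
    rw [hT, Fintype.card_piFinset]
    simp
  have hfinal : T.card * s ^ N ≤ 2 * (T.biUnion G).card := by
    rw [hcard, Finset.mul_sum, ← smul_eq_mul, ← Finset.sum_const]
    exact Finset.sum_le_sum hGcard
  have hprod : ∏ β, (W β / 2) ≤ ∏ β, ((k β : ℝ) * s) :=
    Finset.prod_le_prod (fun β _ => by have := hW4 β; linarith) fun β _ => hk_ge β
  have e1 : (1 / 2) * (1 / (2 * (Q : ℝ))) ^ N * ∏ β, (H * (hi β - lo β)) =
      (1 / 2) * ∏ β, (W β / 2) := by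
    rw [mul_assoc]
    congr 1
    rw [show (1 / (2 * (Q : ℝ))) ^ N = ∏ _β : Mon n d, (1 / (2 * (Q : ℝ))) by
      rw [Finset.prod_const, Finset.card_univ], ← Finset.prod_mul_distrib]
    refine Finset.prod_congr rfl fun β _ => ?_
    rw [hW]
    field_simp
  have e2 : ∏ β, ((k β : ℝ) * s) = ((T.card * s ^ N : ℕ) : ℝ) := by
    rw [Finset.prod_mul_distrib, Finset.prod_const, Finset.card_univ, hTcard]
    push_cast
    rfl
  have e3 : ((T.card * s ^ N : ℕ) : ℝ) ≤ ((2 * (T.biUnion G).card : ℕ) : ℝ) := by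
    exact_mod_cast hfinal
  have e4 : (((T.biUnion G).card : ℕ) : ℝ) ≤ (Nat.card {c : Mon n d → ℤ //
      (∀ β, H * lo β ≤ c β ∧ (c β : ℝ) ≤ H * hi β) ∧ GoodForm c} : ℝ) := by
    exact_mod_cast hle
  rw [e1]
  push_cast at e3 e2
  linarith

/-- The same for every property which is implied by `GoodForm`. -/
theorem exists_delta_of (hn : 2 ≤ n) (hd : 2 ≤ d) (hs : ChartSieve n d)
    {P : (Mon n d → ℤ) → Prop} (hP : ∀ c, GoodForm c → P c) :
    ∃ δ : ℝ, 0 < δ ∧ ∀ lo hi : Mon n d → ℝ, (∀ β, lo β < hi β) → ∃ H₀ : ℝ, ∀ H ≥ H₀,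
      δ * ∏ β, (H * (hi β - lo β)) ≤
        (Nat.card {c : Mon n d → ℤ // (∀ β, H * lo β ≤ c β ∧ (c β : ℝ) ≤ H * hi β) ∧
          P c} : ℝ) := by
  obtain ⟨δ, hδ, h⟩ := exists_delta hn hd hs
  refine ⟨δ, hδ, fun lo hi hlh => ?_⟩
  obtain ⟨H₀, hH₀⟩ := h lo hi hlh
  refine ⟨H₀, fun H hH => (hH₀ H hH).trans ?_⟩
  have hfin : {c : Mon n d → ℤ | (∀ β, H * lo β ≤ c β ∧ (c β : ℝ) ≤ H * hi β) ∧ P c}.Finite := by
    refine Set.Finite.subset (Set.Finite.pi' (fun β => Set.finite_Icc ⌊H * lo β⌋ ⌈H * hi β⌉)) ?_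
    intro c hc β
    obtain ⟨h1, h2⟩ := hc.1 β
    refine ⟨?_, ?_⟩
    · have := (Int.floor_le (H * lo β)).trans h1
      exact_mod_cast this
    · have := h2.trans (Int.le_ceil (H * hi β))
      exact_mod_cast this
  have h1 := Nat.card_mono hfin
    (s := {c : Mon n d → ℤ | (∀ β, H * lo β ≤ c β ∧ (c β : ℝ) ≤ H * hi β) ∧ GoodForm c})
    (fun c hc => ⟨hc.1, hP c hc.2⟩)
  exact_mod_cast h1

end Pool.Agent.H41.PP
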