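import Pool.Agent.H41.PP.Forms

/-!
Smoothness in one positive characteristic implies smoothness in characteristic zero, and
an explicit Nullstellensatz relation with an integer denominator.
-/

open MvPolynomial

namespace Pool.Agent.H41.PP

theorem aeval_mul_left {ι : Type*} {R S : Type*} [CommRing R] [CommRing S] [Algebra R S]
    {F : MvPolynomial ι R} {d : ℕ} (hF : F.IsHomogeneous d) (c : S) (a : ι → S) :
    aeval (fun i => c * a i) F = c ^ d * aeval a F := by
  rw [aeval_def, aeval_def, eval₂_eq, eval₂_eq, Finset.mul_sum]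
  refine Finset.sum_congr rfl fun m hm => ?_
  have h : m.degree = d := by
    have h1 := hF (mem_support_iff.1 hm)
    rw [Finsupp.degree_eq_weight_one]
    exact h1
  rw [← h, Finsupp.degree]
  simp only [mul_pow, Finset.prod_mul_distrib, Finset.prod_pow_eq_pow_sum, AddMonoidHom.coe_mk,
    ZeroHom.coe_mk]
  ring

theorem SingAt.mul_left {k : Type*} [Field k] {m : ℕ} {F : MvPolynomial (Fin m) ℤ} {d : ℕ}
    (hF : F.IsHomogeneous d) {a : Fin m → k} (ha : SingAt F a) (c : k) :
    SingAt F (fun i => c * a i) := by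
  refine ⟨?_, fun j => ?_⟩
  · rw [aeval_mul_left hF, ha.1, mul_zero]
  · rw [aeval_mul_left hF.pderiv, ha.2 j, mul_zero]

theorem smooth_of_char {m : ℕ} {F : MvPolynomial (Fin m) ℤ} {d : ℕ}
    (hF : F.IsHomogeneous d) {p : ℕ} (hp : p.Prime)
    (h : ∀ (k : Type) [Field k] [CharP k p] (a : Fin m → k), SingAt F a → a = 0)
    {K : Type} [Field K] [CharZero K] {a : Fin m → K} (ha : SingAt F a) : a = 0 := by
  by_contra hne
  -- a valuation ring above `p`
  have hI : Ideal.span {((p : ℤ) : (Int.castRingHom K).range)} ≠ ⊤ := by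
    rw [Ne, Ideal.span_singleton_eq_top]
    intro hu
    obtain ⟨⟨b, z, hz⟩, hb⟩ := isUnit_iff_exists_inv.1 hu
    have h2 := congrArg Subtype.val hb
    simp only [Subring.coe_mul, Subring.coe_one] at h2
    rw [← hz] at h2
    have h3 : ((p * z : ℤ) : K) = ((1 : ℤ) : K) := by
      push_cast
      simpa using h2
    have h4 : (p : ℤ) * z = 1 := by exact_mod_cast Int.cast_injective h3
    have := Int.isUnit_iff.1 (IsUnit.of_mul_eq_one z h4)
    have := hp.two_le
    omega
  obtain ⟨V, hV1, hV2⟩ := Ideal.image_subset_nonunits_valuationSubring _ hI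
  -- the largest coordinate
  have hex : ∃ i, ∀ j, V.valuation (a j) ≤ V.valuation (a i) := by
    obtain ⟨i0, hi0⟩ := Function.ne_iff.1 hne
    obtain ⟨i, _, hi⟩ := Finset.exists_max_image Finset.univ (fun j => V.valuation (a j))
      ⟨i0, Finset.mem_univ _⟩
    exact ⟨i, fun j => hi j (Finset.mem_univ _)⟩
  obtain ⟨i, hi⟩ := hex
  have hai : a i ≠ 0 := by
    intro h0
    apply hne
    funext j
    have := hi j
    rw [h0, map_zero, le_zero_iff, map_eq_zero] at this
    simpa using this
  have hb : ∀ j, (a i)⁻¹ * a j ∈ V := by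
    intro j
    rw [← V.valuation_le_one_iff, map_mul, map_inv₀]
    have h0 : V.valuation (a i) ≠ 0 := by simpa using hai
    calc (V.valuation (a i))⁻¹ * V.valuation (a j)
        ≤ (V.valuation (a i))⁻¹ * V.valuation (a i) := by gcongr; exact hi j
      _ = 1 := inv_mul_cancel₀ h0
  have hs := ha.mul_left hF (a i)⁻¹
  let b : Fin m → V := fun j => ⟨(a i)⁻¹ * a j, hb j⟩
  let k := IsLocalRing.ResidueField V
  have hbV : ∀ G : MvPolynomial (Fin m) ℤ, aeval (fun j => (a i)⁻¹ * a j) G = 0 →
      aeval (fun j => IsLocalRing.residue V (b j)) G = (0 : k) := by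
    intro G hG
    have e1 : aeval b G = 0 := by
      apply Subtype.val_injective
      have : ((aeval b G : V) : K) = aeval (fun j => ((b j : V) : K)) G := by
        have := MvPolynomial.map_aeval b (V.subtype) G
        rw [show ((aeval b G : V) : K) = V.subtype (aeval b G) from rfl, this]
        rw [aeval_def, coe_eval₂Hom]
        congr 1
      rw [this]
      simpa using hG
    have := congrArg (IsLocalRing.residue V) e1
    rw [map_zero, MvPolynomial.map_aeval] at this
    rw [← this, aeval_def, coe_eval₂Hom]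
    congr 1
  have hp0 : (p : k) = 0 := by
    have h1 : ((p : K)) ∈ (V.nonunits : Set K) := hV2 ⟨((p : ℤ) : (Int.castRingHom K).range),
      Ideal.subset_span rfl, by simp⟩
    rw [← V.image_maximalIdeal] at h1
    obtain ⟨x, hx, hx2⟩ := h1
    have : x = (p : V) := by
      apply Subtype.val_injective
      simpa using hx2
    rw [this] at hx
    have := (IsLocalRing.residue_eq_zero_iff _).2 hx
    simpa using this
  haveI : CharP k p := by
    haveI := Fact.mk hp
    exact (CharP.charP_iff_prime_eq_zero hp).2 hp0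
  have h0 := h k (fun j => IsLocalRing.residue V (b j)) ⟨hbV _ hs.1, fun j => hbV _ (hs.2 j)⟩
  have h1 := congrFun h0 i
  have h2 : b i = 1 := by
    apply Subtype.val_injective
    simp [b, hai]
  rw [h2, map_one] at h1
  exact one_ne_zero h1

end Pool.Agent.H41.PP
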